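import Mathlib.RingTheory.Jacobson.Ring
import Mathlib.RingTheory.Spectrum.Maximal.Basic
import Mathlib.RingTheory.MvPolynomial.Basic

/-!
Statement: closed points of the affine space over a Jacobson ring.
-/

set_option autoImplicit false

namespace Pool.Agent.Y709.Ten

/-- P1: the closed points of the affine space over a Jacobson ring lie over closed points -/
def SpacePoints : Prop :=
  ∀ (O : Type) [CommRing O] [IsJacobsonRing O] (n : ℕ),
    ∃ E : (Σ 𝔪 : MaximalSpectrum O, MaximalSpectrum (MvPolynomial (Fin n) (O ⧸ 𝔪.asIdeal))) ≃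
      MaximalSpectrum (MvPolynomial (Fin n) O),
      ∀ z, (E z).asIdeal = z.2.asIdeal.comap (MvPolynomial.map (Ideal.Quotient.mk z.1.asIdeal))

end Pool.Agent.Y709.Ten
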