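import Pool.Agent.Y709.Ten.Main
import Pool.Agent.Y709.Irr.Alg
import Pool.Agent.Y737.Ten.T1
import Pool.Agent.Y587.Ten.Companion
import Pool.Agent.Y587.Ten.DetM
import Pool.Agent.Y858.Ten.Aff
import Pool.Agent.Z864.Ten.Line
import Pool.Agent.Y948.Ten.Fib
import Pool.Agent.Y151.Ten.F12

/-!
The number of the twists of a product of pencils with a zero over some covering.
-/

set_option autoImplicit false
set_option linter.unusedSectionVars false

open Polynomial Module

namespace Pool.Agent.Y709.Ten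

open Pool.Agent.W313.Hyp Pool.Agent.W343.BSD Pool.Agent.Y709 Pool.Agent.Y709.Gen
open Pool.Agent.Y709.Lay

section coll

variable {k : Type} [Field k] {n : ℕ} (ε : Fin n → Bool) {rk : Fin n → ℕ}
  (b : ∀ j, Fin (rk j + 1) → k[X]) (m : ∀ j, Fin (rk j + 1) → ℕ)

/-- the polynomial of the collisions of the opposite pencils -/
noncomputable def coll : k[X] :=
  ∏ j, if ε j then 1 else
    ∏ x ∈ Irr.prs (rk j), (b j x.2 - b j x.1) ^ (m j x.1 + m j x.2)

theorem coll_ne (hb : ∀ j, Function.Injective (b j)) : coll ε b m ≠ 0 := by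
  unfold coll
  refine Finset.prod_ne_zero_iff.2 fun j _ => ?_
  split_ifs
  · exact one_ne_zero
  · refine Finset.prod_ne_zero_iff.2 fun x hx => pow_ne_zero _ (sub_ne_zero.2 fun h => ?_)
    have h1 := hb j h
    have h2 := Irr.mem_prs.1 hx
    rw [h1] at h2
    exact lt_irrefl _ h2

theorem detM_eq {p : ℕ} [hp : Fact p.Prime] [CharP k p] (hb : ∀ j, Function.Injective (b j))
    (hm : ∀ j i, 0 < m j i) (hinv : ∀ j, ∀ i : ℕ, i < ∑ l, m j l → ((i : k) + 1) ≠ 0) :
    ∃ c : k, c ≠ 0 ∧ ∏ j, detM ε b m j = C c * coll ε b m := by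
  have h1 : ∀ j, ∃ c : k, c ≠ 0 ∧ detM ε b m j = C c * (if ε j then 1 else
      ∏ x ∈ Irr.prs (rk j), (b j x.2 - b j x.1) ^ (m j x.1 + m j x.2)) := by
    intro j
    unfold detM
    by_cases hj : ε j = true
    · refine ⟨1, one_ne_zero, ?_⟩
      rw [hj, if_pos rfl, if_pos rfl, C_1, one_mul]
    · have hj' : ε j = false := by simpa using hj
      obtain ⟨c, hc, h⟩ := Pool.Agent.Y587.Ten.detMinor k p (rk j) (m j) (hm j) (hinv j) (b j) (hb j)
      refine ⟨c, hc, ?_⟩
      rw [hj', if_neg (by simp), if_neg (by simp)]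
      exact h
  choose c hc h using h1
  refine ⟨∏ j, c j, Finset.prod_ne_zero_iff.2 fun j _ => hc j, ?_⟩
  unfold coll
  rw [Finset.prod_congr rfl fun j _ => h j, Finset.prod_mul_distrib, map_prod]

end coll

section norm

variable {k₀ k : Type} [Field k₀] [Fintype k₀] [Field k] [Fintype k] [Algebra k₀ k] {O : Type}
  [CommRing O] [Algebra k[X] O] {n : ℕ} (q : ℕ) (ε : Fin n → Bool) {rk : Fin n → ℕ}
  (b : ∀ j, Fin (rk j + 1) → k[X]) (m : ∀ j, Fin (rk j + 1) → ℕ)
  (G : Type) [Group G] [Finite G] [MulSemiringAction G O] [IsGaloisGroup G k[X] O]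

include G in
theorem LN_norm (hA : PointsAff) {χ' : MulChar k ℂ} {χ : MulChar k₀ ℂ}
    (h : ∀ u : k, χ' u = χ (Algebra.norm k₀ u)) (E : k[X]) :
    LN O q ε b m χ' E = LN O q ε b m χ E := by
  unfold LN
  congr 1
  funext z
  have hfd := finiteDim_RO (k := k) G z.1
  have hfin : Finite (RO k z.1) := finite_RO (k := k) G z.1
  have h2 : 0 < dV z.2 := (hA (RO k z.1) n).1 z.2
  letI : Field (MvPolynomial (Fin n) (RO k z.1) ⧸ z.2.asIdeal) :=
    @Ideal.Quotient.field _ _ z.2.asIdeal z.2.isMaximal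
  have h3 : FiniteDimensional (RO k z.1) (MvPolynomial (Fin n) (RO k z.1) ⧸ z.2.asIdeal) :=
    Module.finite_of_finrank_pos h2
  have h4 : FiniteDimensional k (MvPolynomial (Fin n) (RO k z.1) ⧸ z.2.asIdeal) :=
    FiniteDimensional.trans k (RO k z.1) _
  have h5 := h (Algebra.norm k (Ideal.Quotient.mk z.2.asIdeal (fibV q ε b m z.1 E)))
  rw [Algebra.norm_norm] at h5
  rw [← h5]

end norm

/-- some function over a covering of degree a power of `p` that is unramified outside the zeros of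
`E` vanishes -/
def VanNX {k : Type} [Field k] (p q e : ℕ) {n : ℕ}
    (ε : Fin n → Bool) {rk : Fin n → ℕ} (b : ∀ j, Fin (rk j + 1) → k[X])
    (m : ∀ j, Fin (rk j + 1) → ℕ) (w : ℕ) (E : k[X]) : Prop :=
  ∃ (G O : Type) (_ : Group G) (_ : Finite G) (_ : CommRing O) (_ : Algebra k[X] O)
    (_ : MulSemiringAction G O) (_ : IsGaloisGroup G k[X] O) (_ : FaithfulSMul k[X] O),
    IsPGroup p G ∧ (∀ 𝔪 : MaximalSpectrum O, vO k 𝔪 E ≠ 0 → 𝔪.asIdeal.inertia G = ⊥) ∧
    ∃ χ : MulChar k ℂ, orderOf χ = q - 1 ∧ ∃ ζ : ℂ, ζ ^ e = 1 ∧ ∃ H : ℂ[X],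
      LN O q ε b m χ E =
        (((1 - C ((Nat.card k : ℂ) ^ w * ζ) * X) * H : ℂ[X]) : PowerSeries ℂ)

theorem vanNL_of_vanNX {k₀ k : Type} [Field k₀] [Fintype k₀] [Field k] [Fintype k] [Algebra k₀ k]
    {p q s e w : ℕ} (hk₀ : Fintype.card k₀ = q) (hk : Fintype.card k = q ^ s) {n : ℕ}
    {ε : Fin n → Bool} {rk : Fin n → ℕ} {b : ∀ j, Fin (rk j + 1) → k[X]}
    {m : ∀ j, Fin (rk j + 1) → ℕ} {E : k[X]} (h : VanNX p q e ε b m w E) :
    VanNL k₀ p q e ε b m ((q ^ s) ^ w) E := by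
  obtain ⟨G, O, i1, i2, i3, i4, i5, i6, i7, hG, hun, χ', hχ', ζ, hζ, H, hH⟩ := h
  obtain ⟨χ, hχ, hcomp⟩ := exists_char hk₀ χ' hχ'
  refine ⟨G, O, i1, i2, i3, i4, i5, i6, i7, hG, hun, χ, hχ, ζ, hζ, H, ?_⟩
  have h1 : (((q ^ s) ^ w : ℕ) : ℂ) = ((q ^ s : ℕ) : ℂ) ^ w := Nat.cast_pow _ _
  rw [← LN_norm q ε b m G Pool.Agent.Y858.Ten.pointsAff hcomp, hH, Nat.card_eq_fintype_card, hk, h1]

section count

variable {k : Type} [Field k] [Fintype k] {p f₀ q s : ℕ} [hp : Fact p.Prime] [CharP k p]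

/-- **the number of the twists with a zero over some covering** -/
theorem countN (hq : q = p ^ f₀) (hf₀ : 0 < f₀) (hs : 0 < s) (hk : Fintype.card k = q ^ s)
    {n : ℕ} (hn : Odd n) (ε : Fin n → Bool) {rk : Fin n → ℕ} (b : ∀ j, Fin (rk j + 1) → k[X])
    (hbi : ∀ j, Function.Injective (b j)) (d : ℕ) (hb : ∀ j i, (b j i).natDegree ≤ d)
    (m : ∀ j, Fin (rk j + 1) → ℕ) (hm : ∀ j i, 0 < m j i) (hmp : ∀ j, ∑ i, m j i < p)
    (hmq : ∀ j, ∑ i, m j i < q - 1) (B : k[X]) (hB : B ≠ 0) (hΔ : (coll ε b m) ^ 2 ∣ B)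
    (f ρ M N e R : ℕ) (he : e ∣ q - 1) (hR : R = ∏ j, rk j)
    (hf : B.natDegree + d * ∑ j, (if ε j then 1 else rk j - 1) * ∑ i, m j i ≤
      f + (coll ε b m).natDegree)
    (h1 : R * f + 3 * R ^ 2 + 6 * R + 8 ≤ q) (h2 : R + 1 ≤ ρ) (h3 : ρ + f ≤ q - 1)
    (h4 : 4 * R ^ 2 + 8 ≤ M) (h5 : N + 1 = (q - 1) * M + ρ) :
    q * {D : k[X] | D.natDegree ≤ N ∧ VanNX p q e ε b m (numP ε) (D * B)}.ncard ≤
      2 * R * e * Nat.card k ^ (N + 1) := by
  classical
  obtain ⟨φ⟩ := exists_const k p f₀ s hf₀ (by rw [hk, hq])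
  let k₀ := GaloisField p f₀
  letI : Algebra k₀ k := φ.toAlgebra
  have hfin : Finite k₀ := Nat.finite_of_card_ne_zero (by
    rw [GaloisField.card p f₀ hf₀.ne']
    exact pow_ne_zero _ hp.out.ne_zero)
  letI : Fintype k₀ := Fintype.ofFinite k₀
  have hk₀ : Fintype.card k₀ = q := by
    rw [← Nat.card_eq_fintype_card, GaloisField.card p f₀ hf₀.ne', hq]
  have hpos : 1 < q := by omega
  have hcp : CharP k₀ p := φ.charP φ.injective p
  have hinv : ∀ j, ∀ i : ℕ, i < ∑ l, m j l → ((i : k₀) + 1) ≠ 0 := by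
    intro j i hi h
    have h1 : ((i + 1 : ℕ) : k₀) = 0 := by rw [Nat.cast_succ, h]
    rw [CharP.cast_eq_zero_iff k₀ p] at h1
    have h2 := Nat.le_of_dvd (Nat.succ_pos i) h1
    have h3 := hmp j
    omega
  have hinv' : ∀ j, ∀ i : ℕ, i < ∑ l, m j l → ((i : k) + 1) ≠ 0 := by
    intro j i hi h
    have h1 : ((i + 1 : ℕ) : k) = 0 := by rw [Nat.cast_succ, h]
    rw [CharP.cast_eq_zero_iff k p] at h1
    have h2 := Nat.le_of_dvd (Nat.succ_pos i) h1
    have h3 := hmp j
    omega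
  obtain ⟨c, hc, hdet⟩ := detM_eq ε b m hbi hm hinv'
  have hcoll := coll_ne ε b m hbi
  obtain ⟨B₁, hB₁⟩ := hΔ
  have hB₁0 : B₁ ≠ 0 := by
    rintro rfl
    rw [mul_zero] at hB₁
    exact hB hB₁
  set F : k[X] := C c⁻¹ * (coll ε b m * B₁) with hF
  have hF0 : F ≠ 0 := mul_ne_zero (C_ne_zero.2 (inv_ne_zero hc)) (mul_ne_zero hcoll hB₁0)
  have hBF : B = F * ∏ j, detM ε b m j := by
    rw [hdet, hF, hB₁]
    have h6 : C c⁻¹ * C c = (1 : k[X]) := by rw [← C_mul, inv_mul_cancel₀ hc, C_1]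
    calc coll ε b m ^ 2 * B₁ = (C c⁻¹ * C c) * (coll ε b m ^ 2 * B₁) := by rw [h6, one_mul]
      _ = _ := by ring
  have hBP : ∀ P : MI k, P.1 ∣ B → P.1 ∣ F := by
    intro P hP
    rw [hB₁] at hP
    rw [hF]
    refine Dvd.dvd.mul_left ?_ _
    rcases P.2.2.prime.dvd_or_dvd hP with h | h
    · exact (P.2.2.prime.dvd_of_dvd_pow h).mul_right _
    · exact h.mul_left _
  have hFd : F.natDegree + (coll ε b m).natDegree = B.natDegree := by
    rw [hF, natDegree_C_mul (inv_ne_zero hc), natDegree_mul hcoll hB₁0, hB₁,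
      natDegree_mul (pow_ne_zero _ hcoll) hB₁0, natDegree_pow]
    ring
  set Φ := F • tens (psiM ε b m) with hΦ
  -- the degrees
  have hpsi : ∀ j x y, (psiM ε b m j x y).natDegree ≤
      (if ε j then 1 else rk j - 1) * (d * ∑ i, m j i) := by
    intro j x y
    have h6 : ∀ x y, (minor 1 (b j) (m j) x y).natDegree ≤ d * ∑ l, m j l := by
      intro x y
      unfold minor
      rw [Matrix.of_apply, one_mul]
      exact natDegree_phi (hb j) (hm j) _ _ _
    unfold psiM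
    by_cases hj : ε j = true
    · rw [hj, if_pos rfl, if_pos rfl, one_mul]
      exact h6 x y
    · have hj' : ε j = false := by simpa using hj
      rw [hj', if_neg (by simp), if_neg (by simp), Matrix.transpose_apply]
      exact Irr.natDegree_adjugate_le _ h6 _ _
  have hΦd : ∀ u v, (Φ u v).natDegree ≤ f := by
    intro u v
    rw [hΦ, Matrix.smul_apply, smul_eq_mul]
    refine natDegree_mul_le.trans ?_
    have h6 := natDegree_tens (psiM ε b m) _ hpsi u v
    have h7 : ∑ j, (if ε j then 1 else rk j - 1) * (d * ∑ i, m j i) =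
        d * ∑ j, (if ε j then 1 else rk j - 1) * ∑ i, m j i := by
      rw [Finset.mul_sum]
      refine Finset.sum_congr rfl fun j _ => ?_
      ring
    rw [h7] at h6
    omega
  -- the determinant
  have hΦ0 : Φ.det ≠ 0 := by
    rw [hΦ, Matrix.det_smul]
    refine mul_ne_zero (pow_ne_zero _ hF0) (Pool.Agent.Y737.Ten.det_tens_ne _ fun j => ?_)
    have hmle : ∀ i, m j i < q := by
      intro i
      have h6 : m j i ≤ ∑ i, m j i := Finset.single_le_sum (f := m j) (fun _ _ => Nat.zero_le _)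
        (Finset.mem_univ i)
      have h7 := hmq j
      omega
    have h8 := det_minor (k := k) hq hf₀ (one_ne_zero (α := k[X])) (hbi j) (hm j) hmle (hinv' j)
    unfold psiM
    by_cases hj : ε j = true
    · rw [hj, if_pos rfl]
      exact h8
    · have hj' : ε j = false := by simpa using hj
      rw [hj', if_neg (by simp), Matrix.det_transpose, Matrix.det_adjugate]
      exact pow_ne_zero _ h8
  -- the count
  have hcard : Fintype.card (∀ j, Fin (rk j)) = R := by
    rw [Fintype.card_pi, hR]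
    exact Finset.prod_congr rfl fun j _ => Fintype.card_fin _
  let eq : (∀ j, Fin (rk j)) ≃ Fin R := Fintype.equivFinOfCardEq hcard
  have h6 := Pool.Agent.Y515.cntSL k q s hk p f₀ hq hs (iterateFrobenius k p f₀)
    (fun x => by rw [iterateFrobenius_def, hq]) R (Matrix.reindex eq eq Φ) f ρ M N
    (by rw [Matrix.det_reindex_self]; exact hΦ0) (fun i j => hΦd _ _) h1 h2 h3 h4 h5
  have h60 : {D : k[X] | D.natDegree ≤ N ∧ ∃ w : Fin R → k[X], w ≠ 0 ∧
      ∀ i, cart q (D * ∑ j, Matrix.reindex eq eq Φ i j * w j) =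
        (w i).map (iterateFrobenius k p f₀)} =
      {D : k[X] | D.natDegree ≤ N ∧ ∃ w : (∀ j, Fin (rk j)) → k[X], w ≠ 0 ∧
      ∀ i, cart q (D * ∑ j, Φ i j * w j) = (w i).map (iterateFrobenius k p f₀)} := by
    ext D
    refine and_congr Iff.rfl ⟨?_, ?_⟩
    · rintro ⟨w, hw0, hw⟩
      refine ⟨fun i => w (eq i), ?_, ?_⟩
      · intro h
        apply hw0
        funext i
        have h7 := congrFun h (eq.symm i)
        rw [Equiv.apply_symm_apply] at h7
        exact h7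
      · intro i
        have h7 := hw (eq i)
        rw [← h7, ← Equiv.sum_comp eq]
        congr 2
        refine Finset.sum_congr rfl fun j _ => ?_
        rw [Matrix.reindex_apply, Matrix.submatrix_apply, Equiv.symm_apply_apply,
          Equiv.symm_apply_apply]
    · rintro ⟨w, hw0, hw⟩
      refine ⟨fun i => w (eq.symm i), ?_, ?_⟩
      · intro h
        apply hw0
        funext i
        have h7 := congrFun h (eq i)
        rw [Equiv.symm_apply_apply] at h7
        exact h7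
      · intro i
        have h7 := hw (eq.symm i)
        rw [← h7, ← Equiv.sum_comp eq.symm]
        congr 2
  set V := {D : k[X] | D.natDegree ≤ N ∧ ∃ w : (∀ j, Fin (rk j)) → k[X], w ≠ 0 ∧
      ∀ i, cart q (D * ∑ j, Φ i j * w j) = (w i).map (iterateFrobenius k p f₀)} with hV
  have hVf : V.Finite := (finite_natDegree_le N).subset fun D hD => hD.1
  have h61 : q * V.ncard ≤ 2 * R * Nat.card k ^ (N + 1) := by
    rw [← h60]
    exact (le_of_eq (congrArg (q * ·) (Nat.card_coe_set_eq _).symm)).trans h6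
  -- the cover
  obtain ⟨S, hSc, _, hsub⟩ := sub_of_vanN (k₀ := k₀) Pool.Agent.Y737.Ten.tensCharpoly
    Pool.Agent.Y587.Ten.companionExists Pool.Agent.Y858.Ten.pointsAff
    (Pool.Agent.Y948.Ten.fibreProduct Pool.Agent.Y858.Ten.pointsAff Pool.Agent.Y858.Ten.sumsAff
      Pool.Agent.Z864.Ten.sumsLine)
    Pool.Agent.Y151.Ten.fibrePlus Pool.Agent.Y151.Ten.fibreMinus hq hf₀ hk₀ hs hk
    (by omega) hn ε b m hm hmq hinv B F hBF hBP N e he
  have hfin2 : (⋃ u ∈ S, (fun D => C u * D) '' V).Finite :=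
    S.finite_toSet.biUnion fun u _ => hVf.image _
  have h62 : {D : k[X] | D.natDegree ≤ N ∧ VanNX p q e ε b m (numP ε) (D * B)}.ncard ≤
      e * V.ncard := by
    refine (Set.ncard_le_ncard (fun D hD => hsub ⟨hD.1, vanNL_of_vanNX hk₀ hk hD.2⟩) hfin2).trans ?_
    refine ((Finset.set_ncard_biUnion_le S _).trans (Finset.sum_le_sum fun u _ =>
      Set.ncard_image_le hVf)).trans ?_
    rw [Finset.sum_const, smul_eq_mul]
    exact Nat.mul_le_mul hSc le_rfl
  calc q * {D : k[X] | D.natDegree ≤ N ∧ VanNX p q e ε b m (numP ε) (D * B)}.ncard ≤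
      q * (e * V.ncard) := Nat.mul_le_mul_left q h62
    _ = e * (q * V.ncard) := by ring
    _ ≤ e * (2 * R * Nat.card k ^ (N + 1)) := Nat.mul_le_mul_left e h61
    _ = _ := by ring

end count

end Pool.Agent.Y709.Ten
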