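import Pool.Agent.Y709.Ten.Loc

/-!
The local factors of a product of pencils and opposite pencils.
-/

set_option autoImplicit false
set_option linter.unusedSectionVars false

open Polynomial Module

namespace Pool.Agent.Y709.Ten

open Pool.Agent.W313.Hyp Pool.Agent.W343.BSD Pool.Agent.Y709 Pool.Agent.Y709.Gen
open Pool.Agent.Y709.Lay

section mn

variable {F : Type} [Field F] {r : ℕ}

theorem inj_of_det {b : Fin (r + 1) → F} {m : Fin (r + 1) → ℕ} (h : (mn b m).det ≠ 0) :
    Function.Injective b := by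
  intro i l hil
  by_contra hne
  apply h
  have hrow : ∀ (i' : Fin r) (l' : Fin (r + 1)), b i'.succ = b l' → i'.succ ≠ l' →
      (mn b m).det = 0 := by
    intro i' l' hb hn
    refine Fin.cases (fun hb _ => ?_) (fun l'' hb hn => ?_) l' hb hn
    · apply Matrix.det_eq_zero_of_row_eq_zero i'
      intro j
      exact phi_row F b m hb j.succ
    · apply Matrix.det_zero_of_row_eq (i := i') (j := l'')
      · intro h1
        exact hn (congrArg Fin.succ h1)
      · funext j
        show phi F b m 0 i'.succ j.succ = phi F b m 0 l''.succ j.succ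
        unfold phi
        rw [Matrix.of_apply, Matrix.of_apply, hb]
  refine Fin.cases (fun hil hne => ?_) (fun i' hil hne => ?_) i hil hne
  · refine Fin.cases (fun _ hne => absurd rfl hne) (fun l' hil hne => ?_) l hil hne
    exact hrow l' 0 hil.symm (Fin.succ_ne_zero _)
  · exact hrow i' l hil hne

theorem map_mn {F' : Type} [Field F'] (f : F →+* F') (b : Fin (r + 1) → F) (m : Fin (r + 1) → ℕ) :
    (mn b m).map f = mn (fun i => f (b i)) m := by
  refine Matrix.ext fun i j => ?_
  exact map_phi' f b m 0 i.succ j.succ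

theorem map_inv_mat {F' : Type} [Field F'] (f : F →+* F') {κ : Type} [Fintype κ] [DecidableEq κ]
    (M : Matrix κ κ F) (h : M.det ≠ 0) : (M⁻¹).map f = (M.map f)⁻¹ := by
  symm
  apply Matrix.inv_eq_right_inv
  rw [← Matrix.map_mul, Matrix.mul_nonsing_inv _ (isUnit_iff_ne_zero.2 h)]
  exact Matrix.map_one f (map_zero f) (map_one f)

theorem minor_vO {k : Type} [Field k] {O : Type} [CommRing O] [Algebra k[X] O]
    (𝔪 : MaximalSpectrum O) (b : Fin (r + 1) → k[X]) (m : Fin (r + 1) → ℕ) :
    (minor 1 b m).map (vO k 𝔪) = mn (fun i => vO k 𝔪 (b i)) m := by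
  refine Matrix.ext fun i j => ?_
  rw [Matrix.map_apply]
  unfold minor mn
  rw [Matrix.of_apply, Matrix.of_apply, one_mul, ← phi_field (k := k),
    map_phi k (vO k 𝔪) (fun a => rfl)]

end mn

section data

variable {k : Type} [Field k] {n : ℕ} (q : ℕ) (ε : Fin n → Bool) {rk : Fin n → ℕ}
  (b : ∀ j, Fin (rk j + 1) → k[X]) (m : ∀ j, Fin (rk j + 1) → ℕ)

/-- the exponents -/
def exq (j : Fin n) (i : Fin (rk j + 1)) : ℕ := if ε j then m j i else q - 1 - m j i

/-- the matrix of a pencil or of the opposite pencil -/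
noncomputable def psiM (j : Fin n) : Matrix (Fin (rk j)) (Fin (rk j)) k[X] :=
  if ε j then minor 1 (b j) (m j) else ((minor 1 (b j) (m j)).adjugate).transpose

/-- the determinant of an opposite pencil -/
noncomputable def detM (j : Fin n) : k[X] := if ε j then 1 else (minor 1 (b j) (m j)).det

variable {O : Type} [CommRing O] [Algebra k[X] O]

/-- the polynomial of the fibre -/
noncomputable def fibV (𝔪 : MaximalSpectrum O) (E : k[X]) : MvPolynomial (Fin n) (RO k 𝔪) :=
  MvPolynomial.C (vO k 𝔪 E) * ∏ j, Polynomial.aeval (MvPolynomial.X j)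
    (∏ i, (X - C (vO k 𝔪 (b j i))) ^ exq q ε m j i : (RO k 𝔪)[X])

/-- the number of the pencils -/
def numP : ℕ := ∑ j, if ε j then 1 else 0

theorem ZV_zero (R : Type) [CommRing R] {k₀ F : Type} [Field k₀] [Field F] [Algebra k₀ F]
    [Finite k₀] [Finite F] (hA : PointsAff) (χ : MulChar k₀ R) {N : ℕ} :
    ZV R χ (0 : MvPolynomial (Fin N) F) = 1 := by
  unfold ZV
  have h1 : ∀ z : MaximalSpectrum (MvPolynomial (Fin N) F), (1 - PowerSeries.C
      (χ (Algebra.norm k₀ (Ideal.Quotient.mk z.asIdeal (0 : MvPolynomial (Fin N) F)))) *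
      PowerSeries.X ^ dV z : PowerSeries R) = 1 := by
    intro z
    have h2 : 0 < dV z := (hA F N).1 z
    have h3 : Module.Finite F (MvPolynomial (Fin N) F ⧸ z.asIdeal) :=
      Module.finite_of_finrank_pos h2
    have h4 : FiniteDimensional k₀ F := inferInstance
    have h5 : Module.Finite k₀ (MvPolynomial (Fin N) F ⧸ z.asIdeal) :=
      Module.Finite.trans F _
    have h6 : Nontrivial (MvPolynomial (Fin N) F ⧸ z.asIdeal) :=
      Ideal.Quotient.nontrivial_iff.2 z.isMaximal.ne_top
    rw [map_zero, Algebra.norm_zero, MulChar.map_zero, map_zero, zero_mul, sub_zero]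
  rw [show (fun z : MaximalSpectrum (MvPolynomial (Fin N) F) => (1 - PowerSeries.C
      (χ (Algebra.norm k₀ (Ideal.Quotient.mk z.asIdeal (0 : MvPolynomial (Fin N) F)))) *
      PowerSeries.X ^ dV z : PowerSeries R)) = fun _ => 1 from funext h1]
  exact eulerProd_one

end data

section local_

variable {k₀ k R K : Type} [Field k₀] [Fintype k₀] [Field k] [Fintype k] [Algebra k₀ k]
  [CommRing R] [IsDomain R] [CharZero R] [Field K] [Algebra k K] [IsAlgClosed K]
  [Algebra.IsAlgebraic k K] (π : R →+* K)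
  (hu : ∀ r : R, π r ≠ 0 → IsUnit r) (χ : MulChar k₀ R)
  (hχ : ∀ u : k₀, π (χ u) = algebraMap k K (algebraMap k₀ k u))
  {O : Type} [CommRing O] [Algebra k[X] O] (G : Type) [Group G] [Finite G]
  [MulSemiringAction G O] [IsGaloisGroup G k[X] O] [FaithfulSMul k[X] O]

include hu hχ G in
/-- the local factors -/
theorem local_ten (hT1 : TensCharpoly) (hT2 : CompanionExists) (hA1 : PointsAff)
    (hA4 : FibreProduct) (hF1 : FibrePlus) (hF2 : FibreMinus)
    {p f₀ q s : ℕ} [hp : Fact p.Prime] [CharP k p] (hq : q = p ^ f₀)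
    (hf₀ : 0 < f₀) (hk₀ : Fintype.card k₀ = q) (hs : 0 < s) (hk : Fintype.card k = q ^ s)
    (h5 : 5 ≤ q) {n : ℕ} (hn : Odd n) (ε : Fin n → Bool) {rk : Fin n → ℕ}
    (b : ∀ j, Fin (rk j + 1) → k[X]) (m : ∀ j, Fin (rk j + 1) → ℕ) (hm : ∀ j i, 0 < m j i)
    (hmq : ∀ j, ∑ i, m j i < q - 1)
    (hinv : ∀ j, ∀ i : ℕ, i < ∑ l, m j l → ((i : k₀) + 1) ≠ 0) (E F : k[X])
    (hE : E = F * ∏ j, detM ε b m j) (hEF : ∀ P : MI k, P.1 ∣ E → P.1 ∣ F)
    (𝔪 : MaximalSpectrum O) (P : MI k) (hP : minpoly k (vO k 𝔪 X) = P.1) (r : K)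
    (hr : aeval r P.1 = 0) :
    ∃ Q : R[X], Q.coeff 0 = 1 ∧
      ZV R χ (fibV q ε b m 𝔪 E) * PowerSeries.rescale
        ((((q : R) ^ s) ^ numP ε) ^ (finrank k (RO k 𝔪))) (Q : PowerSeries R) = 1 ∧
      Q.map π = ((locS (MonoidHom.id K) q (tw K p f₀ (F • tens (psiM ε b m))) r
        (P.1.natDegree * s)) ^ (𝔪.asIdeal.inertiaDeg k[X])).charpolyRev := by
  classical
  have hfi : Finite (RO k 𝔪) := finite_RO (k := k) G 𝔪
  have hFt : Fintype (RO k 𝔪) := Fintype.ofFinite _
  have hfd := finiteDim_RO (k := k) G 𝔪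
  have hmf : Module.Finite k₀ (RO k 𝔪) := Module.Finite.of_finite
  set f := 𝔪.asIdeal.inertiaDeg k[X] with hf
  have hfr : finrank k (RO k 𝔪) = P.1.natDegree * f := by
    have h1 := finrank_RO (k := k) G 𝔪
    have h2 : (pt (k := k) 𝔪).1 = P.1 := hP
    rw [h2] at h1
    exact h1
  have hfpos : 0 < f := inertiaDeg_pos (k := k) G
  set d := f * (P.1.natDegree * s) with hd
  have hdpos : 0 < d := Nat.mul_pos hfpos (Nat.mul_pos (MI.deg_pos P) hs)
  have hFc : Fintype.card (RO k 𝔪) = q ^ d := by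
    have h1 := Module.card_eq_pow_finrank (K := k) (V := RO k 𝔪)
    rw [h1, hk, hfr, ← pow_mul]
    congr 1
    rw [hd]
    ring
  have hFp : CharP (RO k 𝔪) p :=
    charP_of_injective_algebraMap (algebraMap k (RO k 𝔪)).injective p
  obtain ⟨σ, hσ⟩ := exists_emb (k := k) (𝔪 := 𝔪) (P := P) hP hr
  have hχ' : ∀ u : k₀, π (χ u) = (σ : RO k 𝔪 →+* K) (algebraMap k₀ (RO k 𝔪) u) := by
    intro u
    rw [hχ]
    exact (σ.commutes (algebraMap k₀ k u)).symm
  have hloc := locS_gen hq hk (F • tens (psiM ε b m)) P hr σ hσ f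
  by_cases hE0 : vO k 𝔪 E = 0
  · -- a zero of the coefficient
    have hPE : P.1 ∣ E := by
      have h1 := (vO_zero_iff 𝔪 E).1 hE0
      have h2 : (pt (k := k) 𝔪).1 = P.1 := hP
      rwa [h2] at h1
    refine ⟨1, coeff_one_zero, ?_, ?_⟩
    · have h1 : fibV q ε b m 𝔪 E = 0 := by
        unfold fibV
        rw [hE0, map_zero, zero_mul]
      rw [h1, ZV_zero R hA1, one_mul, Polynomial.coe_one, map_one]
    · rw [locS_of_dvd hq hs _ P hr, zero_pow hfpos.ne', charpolyRev_zero', Polynomial.map_one]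
      intro i j
      rw [Matrix.smul_apply, smul_eq_mul]
      exact (hEF P hPE).mul_right _
  -- the fibres
  set b' : ∀ j, Fin (rk j + 1) → RO k 𝔪 := fun j i => vO k 𝔪 (b j i) with hb'
  have hEv : vO k 𝔪 E = vO k 𝔪 F * ∏ j, vO k 𝔪 (detM ε b m j) := by
    rw [hE, map_mul, map_prod]
  have hdet : ∀ j, vO k 𝔪 (detM ε b m j) ≠ 0 := by
    intro j h
    apply hE0
    rw [hEv, Finset.prod_eq_zero (Finset.mem_univ j) h, mul_zero]
  have hdetm : ∀ j, ε j = false → vO k 𝔪 (detM ε b m j) = (mn (b' j) (m j)).det := by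
    intro j hj
    unfold detM
    rw [hj, if_neg (by simp), RingHom.map_det]
    congr 1
    exact minor_vO 𝔪 (b j) (m j)
  have hdet' : ∀ j, ε j = false → (mn (b' j) (m j)).det ≠ 0 := by
    intro j hj
    rw [← hdetm j hj]
    exact hdet j
  set G' : ∀ j, ℕ → Matrix (Fin (rk j)) (Fin (rk j)) (RO k 𝔪) := fun j i =>
    if ε j then mn (cjb q (b' j) i) (m j) else ((mn (cjb q (b' j) i) (m j))⁻¹).transpose with hG'
  set a : Fin n → R := fun j => if ε j then (q : R) ^ d else 1 with ha
  have hfib : ∀ j, ∃ P' : R[X], P'.coeff 0 = 1 ∧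
      fibG R χ (∏ i, (X - C (b' j i)) ^ exq q ε m j i : (RO k 𝔪)[X]) *
        PowerSeries.rescale (a j) (P' : PowerSeries R) = 1 ∧
      P'.map π = (mprod (G' j) d).charpolyRev.map (σ : RO k 𝔪 →+* K) := by
    intro j
    by_cases hj : ε j = true
    · obtain ⟨P', h1, h2, h3⟩ := hF1 k₀ (RO k 𝔪) R K π (σ : RO k 𝔪 →+* K) χ hχ' hu p f₀ q d (rk j)
        hq hf₀ hk₀ h5 hdpos hFc (m j) (hm j) (hmq j) (hinv j) (b' j)
      refine ⟨P', h1, ?_, ?_⟩
      · have e1 : (fun i => (X - C (b' j i)) ^ exq q ε m j i : Fin (rk j + 1) → (RO k 𝔪)[X]) =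
            fun i => (X - C (b' j i)) ^ m j i := by
          funext i
          unfold exq
          rw [hj, if_pos rfl]
        have e2 : a j = (q : R) ^ d := by
          rw [ha]
          dsimp only
          rw [hj, if_pos rfl]
        rw [e1, e2]
        exact h2
      · rw [h3]
        have e1 : G' j = fun i => mn (cjb q (b' j) i) (m j) := by
          funext i
          rw [hG']
          dsimp only
          rw [hj, if_pos rfl]
        rw [e1]
    · have hj' : ε j = false := by simpa using hj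
      obtain ⟨_, P', h1, h2, h3⟩ := hF2 k₀ (RO k 𝔪) R K π (σ : RO k 𝔪 →+* K) χ hχ' hu p f₀ q d
        (rk j) hq hf₀ hk₀ h5 hdpos hFc (m j) (hm j) (hmq j) (hinv j) (b' j)
        (inj_of_det (hdet' j hj'))
      refine ⟨P', h1, ?_, ?_⟩
      · have e1 : (fun i => (X - C (b' j i)) ^ exq q ε m j i : Fin (rk j + 1) → (RO k 𝔪)[X]) =
            fun i => (X - C (b' j i)) ^ (q - 1 - m j i) := by
          funext i
          unfold exq
          rw [hj', if_neg (by simp)]
        have e2 : a j = 1 := by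
          rw [ha]
          dsimp only
          rw [hj', if_neg (by simp)]
        rw [e1, e2, PowerSeries.rescale_one]
        exact h2
      · rw [h3]
        have e1 : G' j = fun i => ((mn (cjb q (b' j) i) (m j))⁻¹).transpose := by
          funext i
          rw [hG']
          dsimp only
          rw [hj', if_neg (by simp)]
        rw [e1]
  choose P' hP0 hP1 hP2 using hfib
  have hcomp := fun j => hT2 R (P' j) (hP0 j)
  choose N A hA using hcomp
  -- the product
  have hprod := hA4 R k₀ (RO k 𝔪) χ n hn (vO k 𝔪 E)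
    (fun j => (∏ i, (X - C (b' j i)) ^ exq q ε m j i : (RO k 𝔪)[X])) (fun j => Fin (N j))
    (fun j => a j • A j) (by
      intro j
      rw [← rescale_charpolyRev, hA]
      exact hP1 j)
  have haprod : ∏ j, a j = ((((q : R) ^ s) ^ numP ε) ^ (finrank k (RO k 𝔪))) := by
    rw [ha, hfr, hd]
    unfold numP
    have e1 : ∀ j, (if ε j then (q : R) ^ (f * (P.1.natDegree * s)) else 1) =
        ((q : R) ^ (f * (P.1.natDegree * s))) ^ (if ε j then 1 else 0 : ℕ) := by
      intro j
      split_ifs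
      · rw [pow_one]
      · rw [pow_zero]
    rw [Finset.prod_congr rfl fun j _ => e1 j, Finset.prod_pow_eq_pow_sum, ← pow_mul, ← pow_mul,
      ← pow_mul]
    congr 1
    ring
  refine ⟨(χ (Algebra.norm k₀ (vO k 𝔪 E)) • tens A).charpolyRev, ?_, ?_, ?_⟩
  · rw [coeff_zero_eq_eval_zero, Matrix.eval_charpolyRev]
  · rw [rescale_charpolyRev, smul_smul, mul_comm (_ ^ _) (χ _), ← smul_smul, ← haprod,
      ← tens_smul']
    exact hprod
  · rw [map_charpolyRev]
    have e1 : ((χ (Algebra.norm k₀ (vO k 𝔪 E)) • tens A).map π) =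
        π (χ (Algebra.norm k₀ (vO k 𝔪 E))) • tens (fun j => (A j).map π) := by
      rw [← tens_map']
      refine Matrix.ext fun u v => ?_
      rw [Matrix.map_apply, Matrix.smul_apply, Matrix.smul_apply, smul_eq_mul, smul_eq_mul, map_mul,
        Matrix.map_apply]
    have e2 := hT1 K (Fin n) (fun j => Fin (N j)) (fun j => Fin (rk j)) (fun j => (A j).map π)
      (fun j => (mprod (G' j) d).map (σ : RO k 𝔪 →+* K)) (π (χ (Algebra.norm k₀ (vO k 𝔪 E)))) (by
        intro j
        rw [← map_charpolyRev, ← map_charpolyRev, hA, hP2])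
    rw [e1, e2]
    congr 1
    have e3 : π (χ (Algebra.norm k₀ (vO k 𝔪 E))) = (σ : RO k 𝔪 →+* K)
        ((vO k 𝔪 E) ^ nex q d) := by
      have h1 := red_chi π (σ : RO k 𝔪 →+* K) χ hχ' hk₀ hFc (vO k 𝔪 E)
      rw [← h1]
      rfl
    rw [← hloc, e3, ← tens_map']
    have e4 : (σ : RO k 𝔪 →+* K) ((vO k 𝔪 E) ^ nex q d) •
        (tens (fun j => mprod (G' j) d)).map (σ : RO k 𝔪 →+* K) =
        (((vO k 𝔪 E) ^ nex q d) • tens (fun j => mprod (G' j) d)).map (σ : RO k 𝔪 →+* K) := by
      refine Matrix.ext fun u v => ?_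
      rw [Matrix.smul_apply, Matrix.map_apply, Matrix.map_apply, Matrix.smul_apply, smul_eq_mul,
        smul_eq_mul, map_mul]
    rw [e4, pow_nex, ← mprod_tens]
    congr 2
    funext i
    -- the factor of index `i`
    have e5 : (F • tens (psiM ε b m)).map (vO k 𝔪) = (vO k 𝔪 E) • tens (fun j => G' j 0) := by
      have h1 : (F • tens (psiM ε b m)).map (vO k 𝔪) =
          (vO k 𝔪 F) • tens (fun j => (psiM ε b m j).map (vO k 𝔪)) := by
        rw [← tens_map']
        refine Matrix.ext fun u v => ?_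
        rw [Matrix.map_apply, Matrix.smul_apply, Matrix.smul_apply, smul_eq_mul, smul_eq_mul,
          map_mul, Matrix.map_apply]
      have h0 : ∀ j, cjb q (b' j) 0 = b' j := by
        intro j
        funext i
        unfold cjb
        rw [pow_zero, pow_one]
      have h2 : (fun j => (psiM ε b m j).map (vO k 𝔪)) =
          fun j => vO k 𝔪 (detM ε b m j) • G' j 0 := by
        funext j
        by_cases hj : ε j = true
        · rw [hG']
          dsimp only
          unfold psiM detM
          rw [hj, if_pos rfl, if_pos rfl, if_pos rfl, map_one, one_smul, h0]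
          exact minor_vO 𝔪 (b j) (m j)
        · have hj' : ε j = false := by simpa using hj
          have h3 := hdetm j hj'
          rw [h3, hG']
          dsimp only
          unfold psiM
          rw [hj', if_neg (by simp), if_neg (by simp), h0, Matrix.transpose_map,
            Matrix.inv_def, Matrix.transpose_smul, smul_smul, Ring.mul_inverse_cancel _
              (isUnit_iff_ne_zero.2 (hdet' j hj')), one_smul]
          congr 1
          rw [← RingHom.mapMatrix_apply, RingHom.map_adjugate, RingHom.mapMatrix_apply]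
          congr 1
          exact minor_vO 𝔪 (b j) (m j)
      rw [h1, h2, tens_smul', smul_smul, hEv]
    rw [e5]
    have hfr' : ∀ x : RO k 𝔪, x ^ (q ^ i) = iterateFrobenius (RO k 𝔪) p (f₀ * i) x := by
      intro x
      rw [iterateFrobenius_def, hq, ← pow_mul]
    have e6 : (fun x : RO k 𝔪 => x ^ (q ^ i)) = iterateFrobenius (RO k 𝔪) p (f₀ * i) := funext hfr'
    rw [e6, hfr']
    have e7 : ((vO k 𝔪 E) • tens (fun j => G' j 0)).map (iterateFrobenius (RO k 𝔪) p (f₀ * i)) =
        (iterateFrobenius (RO k 𝔪) p (f₀ * i) (vO k 𝔪 E)) •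
          tens (fun j => (G' j 0).map (iterateFrobenius (RO k 𝔪) p (f₀ * i))) := by
      rw [← tens_map']
      refine Matrix.ext fun u v => ?_
      rw [Matrix.map_apply, Matrix.smul_apply, Matrix.smul_apply, smul_eq_mul, smul_eq_mul,
        map_mul, Matrix.map_apply]
    rw [e7]
    congr 2
    funext j
    have e8 : ∀ j, (mn (cjb q (b' j) 0) (m j)).map (iterateFrobenius (RO k 𝔪) p (f₀ * i)) =
        mn (cjb q (b' j) i) (m j) := by
      intro j
      rw [map_mn]
      congr 1
      funext l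
      rw [← hfr']
      unfold cjb
      rw [pow_zero, pow_one]
    by_cases hj : ε j = true
    · rw [hG']
      dsimp only
      rw [hj, if_pos rfl, if_pos rfl, e8]
    · have hj' : ε j = false := by simpa using hj
      rw [hG']
      dsimp only
      have h0 : cjb q (b' j) 0 = b' j := by
        funext i
        unfold cjb
        rw [pow_zero, pow_one]
      rw [hj', if_neg (by simp), if_neg (by simp), Matrix.transpose_map, map_inv_mat _ _ (by
        rw [h0]; exact hdet' j hj'), e8]

end local_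

end Pool.Agent.Y709.Ten
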