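import Pool.Agent.Y709.Ten.Stm2

/-!
# The closed points of the affine space over a Jacobson ring
-/

set_option autoImplicit false

namespace Pool.Agent.Y709.Ten.Sp363

open Pool.Agent.Y709.Ten

theorem comap_C_eq {O : Type} [CommRing O] (n : ℕ) (m : Ideal O) [hm : m.IsMaximal]
    (Q : Ideal (MvPolynomial (Fin n) (O ⧸ m))) (hQ : Q ≠ ⊤) :
    (Q.comap (MvPolynomial.map (Ideal.Quotient.mk m))).comap MvPolynomial.C = m := by
  refine (hm.eq_of_le ?_ ?_).symm
  · intro h
    apply hQ
    rw [Ideal.eq_top_iff_one]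
    have h1 : (1 : O) ∈ (Q.comap (MvPolynomial.map (Ideal.Quotient.mk m))).comap
        MvPolynomial.C := by
      rw [h]
      exact Submodule.mem_top
    rw [Ideal.mem_comap, Ideal.mem_comap, map_one, map_one] at h1
    exact h1
  · intro a ha
    rw [Ideal.mem_comap, Ideal.mem_comap, MvPolynomial.map_C,
      Ideal.Quotient.eq_zero_iff_mem.2 ha, map_zero]
    exact Q.zero_mem

theorem spacePoints : SpacePoints := by
  intro O _ _ n
  have hsur : ∀ m : Ideal O, Function.Surjective
      (MvPolynomial.map (σ := Fin n) (Ideal.Quotient.mk m)) := fun m =>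
    MvPolynomial.map_surjective _ Ideal.Quotient.mk_surjective
  let F : (Σ 𝔪 : MaximalSpectrum O, MaximalSpectrum (MvPolynomial (Fin n) (O ⧸ 𝔪.asIdeal))) →
      MaximalSpectrum (MvPolynomial (Fin n) O) := fun z =>
    ⟨z.2.asIdeal.comap (MvPolynomial.map (Ideal.Quotient.mk z.1.asIdeal)), by
      have := z.2.isMaximal
      exact Ideal.comap_isMaximal_of_surjective _ (hsur _)⟩
  have hF : ∀ z, (F z).asIdeal =
      z.2.asIdeal.comap (MvPolynomial.map (Ideal.Quotient.mk z.1.asIdeal)) := fun z => rfl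
  refine ⟨Equiv.ofBijective F ⟨?_, ?_⟩, fun z => rfl⟩
  · rintro ⟨m₁, Q₁⟩ ⟨m₂, Q₂⟩ h
    have h0 := congrArg MaximalSpectrum.asIdeal h
    rw [hF, hF] at h0
    simp only at h0
    have h1 : m₁ = m₂ := by
      have := m₁.isMaximal
      have := m₂.isMaximal
      have e1 := comap_C_eq n m₁.asIdeal Q₁.asIdeal Q₁.isMaximal.ne_top
      have e2 := comap_C_eq n m₂.asIdeal Q₂.asIdeal Q₂.isMaximal.ne_top
      rw [h0, e2] at e1
      exact (MaximalSpectrum.ext e1.symm)
    subst h1
    have h2 : Q₁ = Q₂ := by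
      apply MaximalSpectrum.ext
      exact Ideal.comap_injective_of_surjective _ (hsur _) h0
    rw [h2]
  · intro J
    have := J.isMaximal
    have hint := MvPolynomial.quotient_mk_comp_C_isIntegral_of_isJacobsonRing J.asIdeal
    have hmax : (J.asIdeal.comap (MvPolynomial.C : O →+* MvPolynomial (Fin n) O)).IsMaximal := by
      have h1 : ((⊥ : Ideal (MvPolynomial (Fin n) O ⧸ J.asIdeal)).comap
          ((Ideal.Quotient.mk J.asIdeal).comp MvPolynomial.C)).IsMaximal := by
        have : (⊥ : Ideal (MvPolynomial (Fin n) O ⧸ J.asIdeal)).IsMaximal :=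
          (Ideal.bot_quotient_isMaximal_iff _).mpr J.isMaximal
        exact Ideal.isMaximal_comap_of_isIntegral_of_isMaximal' _ hint _
      rwa [← Ideal.comap_comap, ← RingHom.ker_eq_comap_bot, Ideal.mk_ker] at h1
    set m : Ideal O := J.asIdeal.comap (MvPolynomial.C : O →+* MvPolynomial (Fin n) O) with hm
    have hker : RingHom.ker (MvPolynomial.map (σ := Fin n) (Ideal.Quotient.mk m)) ≤ J.asIdeal := by
      rw [MvPolynomial.ker_map, Ideal.mk_ker, Ideal.map_le_iff_le_comap]
    have hco : (J.asIdeal.map (MvPolynomial.map (σ := Fin n) (Ideal.Quotient.mk m))).comap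
        (MvPolynomial.map (σ := Fin n) (Ideal.Quotient.mk m)) = J.asIdeal := by
      rw [Ideal.comap_map_of_surjective' _ (hsur m), sup_eq_left]
      exact hker
    have hQ : (J.asIdeal.map
        (MvPolynomial.map (σ := Fin n) (Ideal.Quotient.mk m))).IsMaximal := by
      rcases Ideal.map_eq_top_or_isMaximal_of_surjective _ (hsur m) J.isMaximal with h | h
      · exfalso
        rw [h, Ideal.comap_top] at hco
        exact J.isMaximal.ne_top hco.symm
      · exact h
    refine ⟨⟨⟨m, hmax⟩, ⟨_, hQ⟩⟩, ?_⟩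
    apply MaximalSpectrum.ext
    rw [hF]
    exact hco

end Pool.Agent.Y709.Ten.Sp363
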