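import Pool.Agent.Y709.Ten.Wt
import Pool.Agent.Y709.Ten.Space

/-!
The closed points of the affine space over a covering of the line.
-/

set_option autoImplicit false
set_option linter.unusedSectionVars false

open Polynomial Module

namespace Pool.Agent.Y709.Ten

open Pool.Agent.W313.Hyp Pool.Agent.W343.BSD Pool.Agent.Y709 Pool.Agent.Y709.Gen
open Pool.Agent.Y709.Lay

section alg

variable {k : Type} [Field k] {O : Type} [CommRing O] [Algebra k[X] O] {n : ℕ}

/-- the structure of an algebra -/
noncomputable def algI (J : Ideal (MvPolynomial (Fin n) O)) :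
    Algebra k (MvPolynomial (Fin n) O ⧸ J) :=
  ((Ideal.Quotient.mk J).comp
    (MvPolynomial.C.comp ((algebraMap k[X] O).comp (C : k →+* k[X])))).toAlgebra

/-- invariance of degrees and norms -/
theorem algI_comap (𝔪 : MaximalSpectrum O) (Q : Ideal (MvPolynomial (Fin n) (RO k 𝔪)))
    (f : MvPolynomial (Fin n) O →+* MvPolynomial (Fin n) (RO k 𝔪)) (hf : Function.Surjective f)
    (hfC : ∀ a : k, f (MvPolynomial.C (algebraMap k[X] O (C a))) =
      MvPolynomial.C (algebraMap k (RO k 𝔪) a)) :
    @finrank k (MvPolynomial (Fin n) O ⧸ Q.comap f) _ _ (algI (k := k) (Q.comap f)).toModule =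
      finrank k (MvPolynomial (Fin n) (RO k 𝔪) ⧸ Q) ∧
    ∀ g, (@Algebra.norm k (MvPolynomial (Fin n) O ⧸ Q.comap f) _ _ (algI (k := k) (Q.comap f)))
        (Ideal.Quotient.mk (Q.comap f) g) =
      Algebra.norm k (Ideal.Quotient.mk Q (f g)) := by
  letI := algI (k := k) (Q.comap f)
  let e : (MvPolynomial (Fin n) O ⧸ Q.comap f) →ₐ[k] (MvPolynomial (Fin n) (RO k 𝔪) ⧸ Q) :=
    { Ideal.quotientMap Q f le_rfl with
      commutes' := fun a => by
        show Ideal.quotientMap Q f le_rfl (Ideal.Quotient.mk (Q.comap f)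
          (MvPolynomial.C (algebraMap k[X] O (C a)))) = _
        rw [Ideal.quotientMap_mk, hfC]
        rfl }
  have he1 : Function.Injective e := Ideal.quotientMap_injective
  have he2 : Function.Surjective e :=
    Ideal.quotientMap_surjective (J := Q.comap f) (I := Q) (H := le_rfl) hf
  let E : (MvPolynomial (Fin n) O ⧸ Q.comap f) ≃ₐ[k] (MvPolynomial (Fin n) (RO k 𝔪) ⧸ Q) :=
    AlgEquiv.ofBijective e ⟨he1, he2⟩
  refine ⟨E.toLinearEquiv.finrank_eq, fun g => ?_⟩
  have h1 := Algebra.norm_eq_of_algEquiv E (Ideal.Quotient.mk (Q.comap f) g)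
  rw [← h1]
  rfl

end alg

section flat

variable {k : Type} [Field k] [Finite k] {O : Type} [CommRing O] [Algebra k[X] O] {n : ℕ}

/-- the degree of a closed point -/
noncomputable def dgI (J : Ideal (MvPolynomial (Fin n) O)) : ℕ :=
  @finrank k (MvPolynomial (Fin n) O ⧸ J) _ _ (algI (k := k) J).toModule

/-- the weight of a closed point -/
noncomputable def wtI {rk : Fin n → ℕ} (m : ℕ) (χ : MulChar k ℂ) (E : k[X])
    (b : ∀ j, Fin (rk j + 1) → k[X]) (μ : ∀ j, Fin (rk j + 1) → ℕ)
    (J : Ideal (MvPolynomial (Fin n) O)) : ℂ :=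
  χ ((@Algebra.norm k (MvPolynomial (Fin n) O ⧸ J) _ _ (algI (k := k) J))
      (Ideal.Quotient.mk J (MvPolynomial.C (algebraMap k[X] O E) *
        ∏ j : Fin n with j.val < m, ∏ i, (MvPolynomial.X j -
          MvPolynomial.C (algebraMap k[X] O (b j i))) ^ μ j i))) *
    χ⁻¹ ((@Algebra.norm k (MvPolynomial (Fin n) O ⧸ J) _ _ (algI (k := k) J))
      (Ideal.Quotient.mk J (∏ j : Fin n with ¬ j.val < m, ∏ i, (MvPolynomial.X j -
          MvPolynomial.C (algebraMap k[X] O (b j i))) ^ μ j i)))

variable (G : Type) [Group G] [Finite G] [MulSemiringAction G O] [IsGaloisGroup G k[X] O]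

include G in
/-- the Euler product over the closed points of the affine space over the covering -/
theorem flat_eq {q : ℕ} {rk : Fin n → ℕ} (m : ℕ) (χ : MulChar k ℂ) (hχ : orderOf χ = q - 1)
    (E : k[X]) (b : ∀ j, Fin (rk j + 1) → k[X]) (μ : ∀ j, Fin (rk j + 1) → ℕ)
    (hm : ∀ j i, 0 < μ j i) (hmq : ∀ j i, μ j i < q - 1) :
    eulerProd (fun z : MaximalSpectrum (MvPolynomial (Fin n) O) => dgI (k := k) z.asIdeal)
      (fun z => 1 - PowerSeries.C (wtI m χ E b μ z.asIdeal) * PowerSeries.X ^
        (dgI (k := k) z.asIdeal)) =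
      LN O q (fun j => decide ((j : ℕ) < m)) b μ χ E := by
  have hint := isIntegral_O (k := k) (O := O) G
  have hjac : IsJacobsonRing O := isJacobsonRing_of_isIntegral (R := k[X])
  obtain ⟨F, hF⟩ := Sp363.spacePoints O n
  let F' : (Σ 𝔪 : MaximalSpectrum O, MaximalSpectrum (MvPolynomial (Fin n) (RO k 𝔪))) ≃
      MaximalSpectrum (MvPolynomial (Fin n) O) := F
  have hF' : ∀ z, (F' z).asIdeal = z.2.asIdeal.comap
      (MvPolynomial.map (Ideal.Quotient.mk z.1.asIdeal) :
        MvPolynomial (Fin n) O →+* MvPolynomial (Fin n) (RO k z.1)) := hF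
  unfold LN Pool.Agent.W343.BSD.eulerProd
  ext N
  rw [PowerSeries.coeff_mk, PowerSeries.coeff_mk]
  congr 1
  have key : ∀ z : (Σ 𝔪 : MaximalSpectrum O, MaximalSpectrum (MvPolynomial (Fin n) (RO k 𝔪))),
      dgI (k := k) (F' z).asIdeal = finrank k (RO k z.1) * dV z.2 ∧
      wtI m χ E b μ (F' z).asIdeal = χ (Algebra.norm k (Ideal.Quotient.mk z.2.asIdeal
        (fibV q (fun j => decide ((j : ℕ) < m)) b μ z.1 E))) := by
    intro z
    rw [hF' z]
    have hfin : Finite (RO k z.1) := finite_RO (k := k) G z.1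
    have hfd := finiteDim_RO (k := k) G z.1
    obtain ⟨h1, h2⟩ := algI_comap (k := k) z.1 z.2.asIdeal
      (MvPolynomial.map (Ideal.Quotient.mk z.1.asIdeal) :
        MvPolynomial (Fin n) O →+* MvPolynomial (Fin n) (RO k z.1))
      (MvPolynomial.map_surjective _ Ideal.Quotient.mk_surjective) (fun a => by
        rw [MvPolynomial.map_C]
        rfl)
    constructor
    · unfold dgI
      rw [h1]
      exact (Module.finrank_mul_finrank k (RO k z.1)
        (MvPolynomial (Fin n) (RO k z.1) ⧸ z.2.asIdeal)).symm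
    · unfold wtI
      rw [h2, h2]
      have h3 := wt_pt (k := k) (F := RO k z.1) m χ hχ μ hm hmq (vO k z.1 E)
        (fun j i => vO k z.1 (b j i)) z.2
      refine Eq.trans ?_ h3
      congr 4
      · rw [map_mul, map_prod, MvPolynomial.map_C]
        congr 1
        refine Finset.prod_congr rfl fun j _ => ?_
        rw [map_prod]
        refine Finset.prod_congr rfl fun i _ => ?_
        rw [map_pow, map_sub, MvPolynomial.map_X, MvPolynomial.map_C]
        rfl
      · rw [map_prod]
        refine Finset.prod_congr rfl fun j _ => ?_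
        rw [map_prod]
        refine Finset.prod_congr rfl fun i _ => ?_
        rw [map_pow, map_sub, MvPolynomial.map_X, MvPolynomial.map_C]
        rfl
  rw [← finprod_comp_equiv F']
  refine finprod_congr fun z => ?_
  dsimp only
  rw [(key z).1, (key z).2]

end flat

end Pool.Agent.Y709.Ten
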