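import Pool.Agent.Y709.Ten.Stm
import Pool.Agent.Y709.Lay.GlobB

/-!
The Euler product over a covering of the line for general local factors.
-/

set_option autoImplicit false
set_option linter.unusedSectionVars false

open Polynomial Module

namespace Pool.Agent.Y709.Ten

open Pool.Agent.W313.Hyp Pool.Agent.W343.BSD Pool.Agent.Y709 Pool.Agent.Y709.Gen
open Pool.Agent.Y709.Lay

section zero

variable {k : Type} [Field k] [Fintype k] {K : Type} [Field K] [Algebra k K] {p f₀ q s : ℕ}
  [hp : Fact p.Prime] [CharP k p] {κ : Type} [Fintype κ] [DecidableEq κ]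

/-- the factor at a common zero -/
theorem locS_of_dvd (hq : q = p ^ f₀) (hs : 0 < s) (Φ : Matrix κ κ k[X])
    (P : MI k) {r : K} (hr : aeval r P.1 = 0) (hE : ∀ i j, P.1 ∣ Φ i j) :
    locS (MonoidHom.id K) q (tw K p f₀ Φ) r (P.1.natDegree * s) = 0 := by
  have hq0 : 0 < q := by rw [hq]; exact pow_pos hp.out.pos f₀
  have hE0 : ∀ i j, aeval r (Φ i j) = 0 := by
    intro i j
    obtain ⟨c, hc⟩ := hE i j
    rw [hc, map_mul, hr, zero_mul]
  unfold locS
  obtain ⟨n, hn⟩ : ∃ n, P.1.natDegree * s = n + 1 :=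
    ⟨P.1.natDegree * s - 1, by have := Nat.mul_pos (MI.deg_pos P) hs; omega⟩
  rw [hn, mprod_succ]
  have h2 : at' (tw K p f₀ Φ n) ((MonoidHom.id K) r ^ q ^ n) = 0 := by
    show at' (tw K p f₀ Φ n) (r ^ q ^ n) = 0
    rw [at_tw hq]
    refine Matrix.ext fun x y => ?_
    rw [Matrix.map_apply, Matrix.map_apply, Matrix.zero_apply, hE0,
      zero_pow (pow_pos hq0 n).ne']
  rw [h2, zero_mul]

end zero

section glob

variable {k R K : Type} [Field k] [Fintype k]
  [CommRing R] [Field K] [Algebra k K] [IsAlgClosed K]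
  [Algebra.IsAlgebraic k K] (π : R →+* K)
  {κ : Type} [Fintype κ] [DecidableEq κ]
  {O : Type} [CommRing O] [Algebra k[X] O] (G : Type) [Group G] [Finite G]
  [MulSemiringAction G O] [IsGaloisGroup G k[X] O] [FaithfulSMul k[X] O]

/-- the functional equation over the covering and its reduction, for general local factors -/
theorem global_gen {p f₀ q s n g : ℕ} [hp : Fact p.Prime] [CharP k p] (hq : q = p ^ f₀)
    (hs : 0 < s) (hk : Fintype.card k = q ^ s) (hq1 : 1 < q)
    (hG : Nat.card G = p ^ g) (E : k[X]) (Φ : Matrix κ κ k[X])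
    (hΦ : ∀ P : MI k, P.1 ∣ E → ∀ i j, P.1 ∣ Φ i j)
    (hn : ∀ i j, (Φ i j).natDegree < (q - 1) * (n + 1))
    (hun : ∀ 𝔪 : MaximalSpectrum O, vO k 𝔪 E ≠ 0 → 𝔪.asIdeal.inertia G = ⊥)
    (Z : MaximalSpectrum O → PowerSeries R) (c : R)
    (hloc : ∀ (𝔪 : MaximalSpectrum O) (P : MI k), minpoly k (vO k 𝔪 X) = P.1 → ∀ (r : K),
      aeval r P.1 = 0 → ∃ Q : R[X], Q.coeff 0 = 1 ∧
      Z 𝔪 * PowerSeries.rescale (c ^ (finrank k (RO k 𝔪))) (Q : PowerSeries R) = 1 ∧
      Q.map π = ((locS (MonoidHom.id K) q (tw K p f₀ Φ) r (P.1.natDegree * s)) ^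
        (𝔪.asIdeal.inertiaDeg k[X])).charpolyRev) :
    ∃ L : PowerSeries R, eulerProd (fun 𝔪 : MaximalSpectrum O => finrank k (RO k 𝔪))
      (fun 𝔪 => PowerSeries.expand (finrank k (RO k 𝔪)) (finrank_ne' G 𝔪) (Z 𝔪)) *
        PowerSeries.rescale c L = 1 ∧
      PowerSeries.map π L *
        ((mprod (fun j => kmat q n (tw K p f₀ Φ j)) s).charpolyRev :
          PowerSeries K) ^ (Nat.card G) = 1 := by
  classical
  have hfin := fun n => points_finite (k := k) (O := O) G n
  have hfink := fun n => finite_deg_le (F := k) n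
  have hroot := fun P : MI k => exists_root_MI (K := K) P
  choose ρ hρ using hroot
  have hfd : ∀ 𝔪 : MaximalSpectrum O, FiniteDimensional k (RO k 𝔪) := fun 𝔪 => finiteDim_RO G 𝔪
  have hpK : CharP K p := charP_of_injective_algebraMap (algebraMap k K).injective p
  -- the local factors
  have hloc' : ∀ 𝔪 : MaximalSpectrum O, ∃ Q : R[X], Q.coeff 0 = 1 ∧
      Z 𝔪 * PowerSeries.rescale (c ^ (finrank k (RO k 𝔪))) (Q : PowerSeries R) = 1 ∧
      PowerSeries.expand (finrank k (RO k 𝔪)) (finrank_ne' G 𝔪) ((Q.map π : K[X]) : PowerSeries K) =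
        (locFS (MonoidHom.id K) q s (tw K p f₀ Φ) (ρ (pt (k := k) 𝔪))
          (pt (k := k) 𝔪).1.natDegree (deg_ne _)) ^ (𝔪.asIdeal.inertiaDeg k[X]) := by
    intro 𝔪
    set P := pt (k := k) 𝔪 with hP
    have hfr : finrank k (RO k 𝔪) = P.1.natDegree * 𝔪.asIdeal.inertiaDeg k[X] :=
      finrank_RO (k := k) G 𝔪
    obtain ⟨Q, h0, h1, h2⟩ := hloc 𝔪 P rfl (ρ P) (hρ P)
    refine ⟨Q, h0, h1, ?_⟩
    rw [h2]
    exact expand_pow_charpolyRev (p := p) _ (deg_ne P) (finrank_ne' G 𝔪)
      (inertiaDeg_pow (k := k) G hp.out hG 𝔪) hfr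
  choose Q hQ0 hQ1 hQ2 using hloc'
  have hQc : ∀ 𝔪, PowerSeries.constantCoeff (Q 𝔪 : PowerSeries R) = 1 := by
    intro 𝔪
    rw [← PowerSeries.coeff_zero_eq_constantCoeff_apply, Polynomial.coeff_coe, hQ0]
  refine ⟨eulerProd (fun 𝔪 : MaximalSpectrum O => finrank k (RO k 𝔪))
    (fun 𝔪 => PowerSeries.expand (finrank k (RO k 𝔪)) (finrank_ne' G 𝔪)
      (Q 𝔪 : PowerSeries R)), ?_, ?_⟩
  · rw [rescale_euler hfin, ← eulerProd_mul hfin]
    · have h1 : (fun 𝔪 : MaximalSpectrum O => PowerSeries.expand (finrank k (RO k 𝔪))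
          (finrank_ne' G 𝔪) (Z 𝔪) *
            PowerSeries.rescale c (PowerSeries.expand (finrank k (RO k 𝔪))
              (finrank_ne' G 𝔪) (Q 𝔪 : PowerSeries R))) = fun _ => 1 := by
        funext 𝔪
        rw [rescale_expand, ← map_mul, hQ1, map_one]
      rw [h1]
      exact eulerProd_one
    · intro 𝔪
      apply expand_mod
      have h1 := congrArg PowerSeries.constantCoeff (hQ1 𝔪)
      rw [map_mul, map_one] at h1
      have h2 : PowerSeries.constantCoeff (PowerSeries.rescale (c ^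
          (finrank k (RO k 𝔪))) (Q 𝔪 : PowerSeries R)) = 1 := by
        rw [← PowerSeries.coeff_zero_eq_constantCoeff_apply, PowerSeries.coeff_rescale, pow_zero,
          one_mul, PowerSeries.coeff_zero_eq_constantCoeff_apply, hQc]
      rwa [h2, mul_one] at h1
    · intro 𝔪
      rw [rescale_expand]
      apply expand_mod
      rw [← PowerSeries.coeff_zero_eq_constantCoeff_apply, PowerSeries.coeff_rescale, pow_zero,
          one_mul, PowerSeries.coeff_zero_eq_constantCoeff_apply, hQc]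
  · rw [map_eulerProd hfin]
    set φ : MI k → PowerSeries K := fun P => locFS (MonoidHom.id K) q s (tw K p f₀ Φ)
      (ρ P) P.1.natDegree (deg_ne P) with hφ
    have hφ1 : ∀ P : MI k, (PowerSeries.X : PowerSeries K) ^ P.1.natDegree ∣ φ P - 1 :=
      fun P => locFS_mod _ _ _ _ _ _ _
    have h1 : (fun 𝔪 : MaximalSpectrum O => PowerSeries.map π (PowerSeries.expand
        (finrank k (RO k 𝔪)) (finrank_ne' G 𝔪) (Q 𝔪 : PowerSeries R))) =
        fun 𝔪 => φ (pt (k := k) 𝔪) ^ (𝔪.asIdeal.inertiaDeg k[X]) := by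
      funext 𝔪
      rw [PowerSeries.map_expand, ← Polynomial.polynomial_map_coe, hQ2]
    have hmod : ∀ 𝔪 : MaximalSpectrum O, (PowerSeries.X : PowerSeries K) ^
        (finrank k (RO k 𝔪)) ∣ φ (pt (k := k) 𝔪) ^ (𝔪.asIdeal.inertiaDeg k[X]) - 1 := by
      intro 𝔪
      have h2 := congrFun h1 𝔪
      rw [← h2, PowerSeries.map_expand]
      apply expand_mod
      rw [← Polynomial.polynomial_map_coe, ← PowerSeries.coeff_zero_eq_constantCoeff_apply,
        Polynomial.coeff_coe, Polynomial.coeff_map, hQ0, map_one]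
    have h3 : eulerProd (fun P : MI k => P.1.natDegree) (fun P => ∏ 𝔪 ∈
        (above_finite (O := O) G P).toFinset,
          φ (pt (k := k) 𝔪) ^ (𝔪.asIdeal.inertiaDeg k[X])) =
        eulerProd (fun 𝔪 : MaximalSpectrum O => finrank k (RO k 𝔪))
          (fun 𝔪 => φ (pt (k := k) 𝔪) ^ (𝔪.asIdeal.inertiaDeg k[X])) := by
      refine eulerProd_fiber hfink hfin hmod
        (fun P => (above_finite (O := O) G P).toFinset) ?_ ?_ ?_
      · intro 𝔪
        refine ⟨pt (k := k) 𝔪, ?_⟩
        rw [Set.Finite.mem_toFinset]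
        rfl
      · intro P P' 𝔪 h h'
        rw [Set.Finite.mem_toFinset] at h h'
        have e1 : minpoly k (vO k 𝔪 X) = P.1 := h
        have e2 : minpoly k (vO k 𝔪 X) = P'.1 := h'
        exact Subtype.ext (e1.symm.trans e2)
      · intro P 𝔪 h
        rw [Set.Finite.mem_toFinset] at h
        have e1 : (pt (k := k) 𝔪).1 = P.1 := h
        show P.1.natDegree ≤ _
        rw [finrank_RO (k := k) G 𝔪, e1]
        exact Nat.le_mul_of_pos_right _ (inertiaDeg_pos (k := k) G)
    have h4 : (fun P : MI k => ∏ 𝔪 ∈ (above_finite (O := O) G P).toFinset,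
          φ (pt (k := k) 𝔪) ^ (𝔪.asIdeal.inertiaDeg k[X])) = fun P => φ P ^ (Nat.card G) := by
      funext P
      have e0 : ∀ 𝔪 ∈ (above_finite (O := O) G P).toFinset,
          φ (pt (k := k) 𝔪) ^ (𝔪.asIdeal.inertiaDeg k[X]) =
            φ P ^ (𝔪.asIdeal.inertiaDeg k[X]) := by
        intro 𝔪 h
        rw [Set.Finite.mem_toFinset] at h
        have e1 : pt (k := k) 𝔪 = P := Subtype.ext h
        rw [e1]
      rw [Finset.prod_congr rfl e0, Finset.prod_pow_eq_pow_sum]
      by_cases hE : P.1 ∣ E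
      · have e1 : φ P = 1 := by
          rw [hφ]
          dsimp only
          unfold locFS
          rw [locS_of_dvd hq hs Φ P (hρ P) (hΦ P hE), charpolyRev_zero', Polynomial.coe_one,
            map_one]
        rw [e1, one_pow, one_pow]
      · rw [sum_inertiaDeg (O := O) G P]
        intro 𝔪 h
        apply hun
        intro h0
        rw [vO_zero_iff] at h0
        have e1 : (pt (k := k) 𝔪).1 = P.1 := h
        rw [e1] at h0
        exact hE h0
    have h5' : eulerProd (fun P : MI k => P.1.natDegree) (fun P => φ P ^ (Nat.card G)) =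
        (eulerProd (fun P : MI k => P.1.natDegree) φ) ^ (Nat.card G) := by
      have e1 := eulerProd_prod hfink (Finset.range (Nat.card G)) (fun _ P => φ P)
        (fun _ P => hφ1 P)
      simp only [Finset.prod_const, Finset.card_range] at e1
      exact e1
    rw [h1, ← h3, h4, h5', ← mul_pow]
    have h6 := formula_modS (k := k) (K := K) (m := n) hs hq1
      (by rw [Nat.card_eq_fintype_card, hk]) (tw K p f₀ Φ) (tw_per hq hk _)
      (fun j x y => (tw_deg Φ j x y).trans_lt (hn x y)) ρ hρ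
    rw [h6, one_pow]

end glob

end Pool.Agent.Y709.Ten
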