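import Pool.Agent.Y709.Ten.Glob

/-!
The local factors of a product of pencils.
-/

set_option autoImplicit false
set_option linter.unusedSectionVars false

open Polynomial Module

namespace Pool.Agent.Y709.Ten

open Pool.Agent.W313.Hyp Pool.Agent.W343.BSD Pool.Agent.Y709 Pool.Agent.Y709.Gen
open Pool.Agent.Y709.Lay

section loc

variable {k : Type} [Field k] [Fintype k] {O : Type} [CommRing O]
  [Algebra k[X] O] {K : Type} [Field K] [Algebra k K] {p f₀ q s : ℕ} [hp : Fact p.Prime] [CharP k p]
  {κ : Type} [Fintype κ] [DecidableEq κ]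

/-- the local factors of the covering, for a general matrix -/
theorem locS_gen (hq : q = p ^ f₀) (hk : Fintype.card k = q ^ s) (Φ : Matrix κ κ k[X])
    {𝔪 : MaximalSpectrum O} (P : MI k) {r : K} (hr : aeval r P.1 = 0)
    (σ : RO k 𝔪 →ₐ[k] K) (hσ : σ (vO k 𝔪 X) = r) (f : ℕ) :
    (mprod (fun j => (Φ.map (vO k 𝔪)).map (fun x => x ^ (q ^ j)))
      (f * (P.1.natDegree * s))).map (σ : RO k 𝔪 →+* K) =
      (locS (MonoidHom.id K) q (tw K p f₀ Φ) r (P.1.natDegree * s)) ^ f := by
  have hpK : CharP K p := charP_of_injective_algebraMap (algebraMap k K).injective p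
  have hper : ∀ j, tw K p f₀ Φ (j + s) = tw K p f₀ Φ j := tw_per hq hk _
  unfold locS
  set F : ℕ → Matrix κ κ K := fun j => at' (tw K p f₀ Φ j) ((MonoidHom.id K) r ^ (q ^ j))
    with hF
  have hFper : ∀ j, F (j + P.1.natDegree * s) = F j := by
    intro j
    rw [hF]
    show at' _ _ = at' _ _
    rw [per_mul hper]
    congr 1
    have h2 : q ^ (j + P.1.natDegree * s) = Nat.card k ^ P.1.natDegree * q ^ j := by
      rw [Nat.card_eq_fintype_card, hk, ← pow_mul, ← pow_add]
      congr 1
      ring
    show r ^ _ = r ^ _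
    rw [h2, pow_mul, root_pow P hr dvd_rfl]
  rw [← mprod_mul hFper, mprod_map]
  congr 1
  funext j
  have h2 : ∀ g : k[X], σ (vO k 𝔪 g) = aeval r g := by
    intro g
    rw [vO_eq_aeval, ← Polynomial.aeval_algHom_apply, hσ]
  rw [hF]
  show _ = at' (tw K p f₀ Φ j) (r ^ (q ^ j))
  rw [at_tw hq]
  refine Matrix.ext fun x y => ?_
  simp only [Matrix.map_apply]
  rw [map_pow]
  congr 1
  exact h2 (Φ x y)

end loc

section tens

variable {R S : Type} [CommRing R] [CommRing S] {ι : Type} [Fintype ι] {κ : ι → Type}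

theorem tens_map' (A : ∀ j, Matrix (κ j) (κ j) R) (f : R →+* S) :
    (tens A).map f = tens (fun j => (A j).map f) := by
  refine Matrix.ext fun u v => ?_
  unfold tens
  rw [Matrix.map_apply, Matrix.of_apply, Matrix.of_apply, map_prod]
  rfl

theorem tens_smul' (c : ι → R) (A : ∀ j, Matrix (κ j) (κ j) R) :
    tens (fun j => c j • A j) = (∏ j, c j) • tens A := by
  refine Matrix.ext fun u v => ?_
  unfold tens
  rw [Matrix.smul_apply, Matrix.of_apply, Matrix.of_apply, smul_eq_mul, ← Finset.prod_mul_distrib]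
  rfl

variable [DecidableEq ι] [∀ j, Fintype (κ j)] [∀ j, DecidableEq (κ j)]

theorem tens_mul' (A B : ∀ j, Matrix (κ j) (κ j) R) :
    tens (fun j => A j * B j) = tens A * tens B := by
  refine Matrix.ext fun u v => ?_
  rw [Matrix.mul_apply]
  unfold tens
  simp only [Matrix.of_apply, Matrix.mul_apply]
  rw [Finset.prod_univ_sum, Fintype.piFinset_univ]
  refine Finset.sum_congr rfl fun w _ => ?_
  rw [Finset.prod_mul_distrib]

theorem tens_one' : tens (fun j => (1 : Matrix (κ j) (κ j) R)) = 1 := by
  refine Matrix.ext fun u v => ?_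
  unfold tens
  rw [Matrix.of_apply, Matrix.one_apply]
  split_ifs with h
  · subst h
    exact Finset.prod_eq_one fun j _ => Matrix.one_apply_eq _
  · obtain ⟨j, hj⟩ := Function.ne_iff.1 h
    exact Finset.prod_eq_zero (Finset.mem_univ j) (Matrix.one_apply_ne hj)

theorem mprod_tens (c : ℕ → R) (A : ∀ j, ℕ → Matrix (κ j) (κ j) R) (n : ℕ) :
    mprod (fun i => c i • tens (fun j => A j i)) n =
      (∏ i ∈ Finset.range n, c i) • tens (fun j => mprod (A j) n) := by
  induction n with
  | zero =>
    rw [Finset.prod_range_zero, one_smul]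
    show (1 : Matrix _ _ R) = tens (fun j => (1 : Matrix (κ j) (κ j) R))
    rw [tens_one']
  | succ n ih =>
    rw [mprod_succ, ih, Finset.prod_range_succ, Matrix.smul_mul, Matrix.mul_smul, smul_smul,
      ← tens_mul', mul_comm (c n)]
    rfl

end tens

section resc

variable {R : Type} [CommRing R] {κ : Type} [Fintype κ] [DecidableEq κ]

theorem rescale_charpolyRev (a : R) (A : Matrix κ κ R) :
    PowerSeries.rescale a (A.charpolyRev : PowerSeries R) =
      ((a • A).charpolyRev : PowerSeries R) := by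
  have h1 : (a • A).charpolyRev = (A.charpolyRev).comp (C a * X) := by
    unfold Matrix.charpolyRev
    rw [← coe_compRingHom_apply, RingHom.map_det]
    congr 1
    refine Matrix.ext fun i j => ?_
    rw [RingHom.mapMatrix_apply, Matrix.map_apply, Matrix.sub_apply, Matrix.sub_apply,
      Matrix.smul_apply, Matrix.smul_apply, Matrix.map_apply, Matrix.map_apply, coe_compRingHom_apply,
      sub_comp, smul_eq_mul, smul_eq_mul, mul_comp, X_comp, C_comp, Matrix.one_apply,
      Matrix.smul_apply, smul_eq_mul, C_mul]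
    split_ifs
    · rw [one_comp]; ring
    · rw [zero_comp]; ring
  ext n
  rw [PowerSeries.coeff_rescale, Polynomial.coeff_coe, Polynomial.coeff_coe, h1,
    comp_C_mul_X_coeff, mul_comm]

end resc

end Pool.Agent.Y709.Ten
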