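import Pool.Agent.Y709.Ten.Fibre
import Pool.Agent.Y709.Lay.CountX

/-!
Vanishing of the functions of a product of pencils and the fixed vectors.
-/

set_option autoImplicit false
set_option linter.unusedSectionVars false

open Polynomial Module

namespace Pool.Agent.Y709.Ten

open Pool.Agent.W313.Hyp Pool.Agent.W343.BSD Pool.Agent.Y709 Pool.Agent.Y709.Gen
open Pool.Agent.Y709.Lay

section ln

variable {k₀ k : Type} [Field k₀] [Field k] [Algebra k₀ k] {O : Type} [CommRing O] [Algebra k[X] O]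
  {R : Type} [CommRing R] {n : ℕ} (q : ℕ) (ε : Fin n → Bool) {rk : Fin n → ℕ}
  (b : ∀ j, Fin (rk j + 1) → k[X]) (m : ∀ j, Fin (rk j + 1) → ℕ)

variable (O) in
/-- the Euler product over the covering times the affine space -/
noncomputable def LN (χ : MulChar k₀ R) (E : k[X]) : PowerSeries R :=
  eulerProd (fun z : Σ 𝔪 : MaximalSpectrum O, MaximalSpectrum (MvPolynomial (Fin n) (RO k 𝔪)) =>
      finrank k (RO k z.1) * dV z.2)
    (fun z => 1 - PowerSeries.C (χ (Algebra.norm k₀ (Ideal.Quotient.mk z.2.asIdeal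
      (fibV q ε b m z.1 E)))) * PowerSeries.X ^ (finrank k (RO k z.1) * dV z.2))

variable [Finite k] (G : Type) [Group G] [Finite G] [MulSemiringAction G O] [IsGaloisGroup G k[X] O]

include G in
theorem coverN_finite (hA : PointsAff) (N : ℕ) :
    {z : Σ 𝔪 : MaximalSpectrum O, MaximalSpectrum (MvPolynomial (Fin n) (RO k 𝔪)) |
      finrank k (RO k z.1) * dV z.2 ≤ N}.Finite := by
  have hf : ∀ 𝔪 : MaximalSpectrum O, Finite (RO k 𝔪) := fun 𝔪 => finite_RO (k := k) G 𝔪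
  refine sigma_finite (d := fun 𝔪 : MaximalSpectrum O => finrank k (RO k 𝔪))
    (e := fun 𝔪 (Q : MaximalSpectrum (MvPolynomial (Fin n) (RO k 𝔪))) => dV Q)
    (fun N => points_finite (k := k) G N)
    (fun 𝔪 => Nat.pos_of_ne_zero (finrank_ne' G 𝔪)) (fun 𝔪 N => ?_) (fun 𝔪 Q => ?_) N
  · exact (hA (RO k 𝔪) n).2 N
  · exact (hA (RO k 𝔪) n).1 Q

include G in
theorem LN_eq (hA : PointsAff) (χ : MulChar k₀ R) (E : k[X]) :
    LN O q ε b m χ E = eulerProd (fun 𝔪 : MaximalSpectrum O => finrank k (RO k 𝔪))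
      (fun 𝔪 => PowerSeries.expand (finrank k (RO k 𝔪)) (finrank_ne' G 𝔪)
        (ZV R χ (fibV q ε b m 𝔪 E))) := by
  have hf : ∀ 𝔪 : MaximalSpectrum O, Finite (RO k 𝔪) := fun 𝔪 => finite_RO (k := k) G 𝔪
  have hdv : ∀ (a : R) (n : ℕ), (PowerSeries.X : PowerSeries R) ^ n ∣
      (1 - PowerSeries.C a * PowerSeries.X ^ n) - 1 := by
    intro a n
    rw [sub_right_comm, sub_self, zero_sub]
    exact (dvd_neg).2 (dvd_mul_left _ _)
  unfold LN
  rw [eulerProd_sigma (d := fun 𝔪 : MaximalSpectrum O => finrank k (RO k 𝔪))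
    (e := fun 𝔪 (Q : MaximalSpectrum (MvPolynomial (Fin n) (RO k 𝔪))) => dV Q)
    (fun n => points_finite (k := k) G n) (fun 𝔪 => Nat.pos_of_ne_zero (finrank_ne' G 𝔪))
    (fun 𝔪 N => (hA (RO k 𝔪) n).2 N) (fun 𝔪 Q => (hA (RO k 𝔪) n).1 Q) _ (fun z => hdv _ _)]
  congr 1
  funext 𝔪
  unfold ZV
  rw [expand_euler (fun N => (hA (RO k 𝔪) n).2 N) (finrank_ne' G 𝔪) (fun Q => hdv _ _)]
  congr 1
  funext Q
  rw [map_sub, map_one, map_mul, map_pow, PowerSeries.expand_X, PowerSeries.expand_C, ← pow_mul]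

end ln

section deg

variable {k : Type} [Field k] {r : ℕ}

theorem natDegree_tens {n : ℕ} {κ : Fin n → Type} (A : ∀ j, Matrix (κ j) (κ j) k[X]) (f : Fin n → ℕ)
    (h : ∀ j x y, (A j x y).natDegree ≤ f j) (u v : ∀ j, κ j) :
    (tens A u v).natDegree ≤ ∑ j, f j := by
  unfold tens
  rw [Matrix.of_apply]
  exact (natDegree_prod_le _ _).trans (Finset.sum_le_sum fun j _ => h j _ _)

end deg

section fix

variable {k₀ k : Type} [Field k₀] [Fintype k₀] [Field k] [Fintype k] [Algebra k₀ k]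
  {p f₀ q s : ℕ} [hp : Fact p.Prime] [CharP k p]
  {O : Type} [CommRing O] [Algebra k[X] O] (G : Type) [Group G] [Finite G]
  [MulSemiringAction G O] [IsGaloisGroup G k[X] O] [FaithfulSMul k[X] O]

include G in
/-- vanishing over the covering gives a fixed vector -/
theorem fixed_of_vanishN (hT1 : TensCharpoly) (hT2 : CompanionExists) (hA1 : PointsAff)
    (hA4 : FibreProduct) (hF1 : FibrePlus) (hF2 : FibreMinus)
    (hq : q = p ^ f₀) (hf₀ : 0 < f₀) (hk₀ : Fintype.card k₀ = q) (hs : 0 < s)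
    (hk : Fintype.card k = q ^ s) (h5 : 5 ≤ q) (hG : IsPGroup p G)
    (χ : MulChar k₀ ℂ) (hχ : orderOf χ = q - 1) {n : ℕ} (hn : Odd n) (ε : Fin n → Bool)
    {rk : Fin n → ℕ} (b : ∀ j, Fin (rk j + 1) → k[X]) (m : ∀ j, Fin (rk j + 1) → ℕ)
    (hm : ∀ j i, 0 < m j i) (hmq : ∀ j, ∑ i, m j i < q - 1)
    (hinv : ∀ j, ∀ i : ℕ, i < ∑ l, m j l → ((i : k₀) + 1) ≠ 0) (E F : k[X])
    (hE : E = F * ∏ j, detM ε b m j) (hEF : ∀ P : MI k, P.1 ∣ E → P.1 ∣ F)
    (hun : ∀ 𝔪 : MaximalSpectrum O, vO k 𝔪 E ≠ 0 → 𝔪.asIdeal.inertia G = ⊥) (H : ℂ[X])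
    (hH : LN O q ε b m χ E =
      (((1 - C ((((q ^ s) ^ numP ε : ℕ)) : ℂ) * X) * H : ℂ[X]) : PowerSeries ℂ)) :
    ∃ w : (∀ j, Fin (rk j)) → k[X], w ≠ 0 ∧
      ∀ i, cart q (∑ j, (F • tens (psiM ε b m)) i j * w j) =
        (w i).map (iterateFrobenius k p f₀) := by
  classical
  obtain ⟨g, hg⟩ := IsPGroup.iff_card.1 hG
  let K := AlgebraicClosure k
  have hpK : CharP K p := charP_of_injective_algebraMap (algebraMap k K).injective p
  have hpk₀ : CharP k₀ p := (algebraMap k₀ k).charP (algebraMap k₀ k).injective p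
  have hc0 := witt_charZero p K
  obtain ⟨H', hH'⟩ := transfer χ (by rw [hχ, hk₀]) (teichChar (k := k₀) p K)
    (orderOf_teichChar p K) _ (coverN_finite (k := k) (n := n) G hA1)
    (fun z : Σ 𝔪 : MaximalSpectrum O, MaximalSpectrum (MvPolynomial (Fin n) (RO k 𝔪)) =>
      Algebra.norm k₀ (Ideal.Quotient.mk z.2.asIdeal (fibV q ε b m z.1 E)))
    ((q ^ s) ^ numP ε) H hH
  set Φ := F • tens (psiM ε b m) with hΦ
  set e := ∑ i, ∑ j, (Φ i j).natDegree with he
  have hdeg : ∀ i j, (Φ i j).natDegree ≤ e := by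
    intro i j
    have h1 : (Φ i j).natDegree ≤ ∑ j, (Φ i j).natDegree :=
      Finset.single_le_sum (f := fun j => (Φ i j).natDegree) (fun _ _ => Nat.zero_le _)
        (Finset.mem_univ j)
    exact h1.trans (Finset.single_le_sum (f := fun i => ∑ j, (Φ i j).natDegree)
      (fun _ _ => Nat.zero_le _) (Finset.mem_univ i))
  have hne : e < (q - 1) * (e + 1) := by
    have h1 : 1 * (e + 1) ≤ (q - 1) * (e + 1) := Nat.mul_le_mul_right _ (by omega)
    omega
  have hΦE : ∀ P : MI k, P.1 ∣ E → ∀ i j, P.1 ∣ Φ i j := by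
    intro P hP i j
    rw [hΦ, Matrix.smul_apply, smul_eq_mul]
    exact (hEF P hP).mul_right _
  obtain ⟨L, h1, h2⟩ := global_gen (k := k) (K := K)
    (WittVector.constantCoeff (p := p) (R := K)) G hq hs hk (by omega) hg E Φ hΦE
    (n := e) (fun i j => (hdeg i j).trans_lt hne) hun
    (fun 𝔪 => ZV (WittVector p K) (teichChar (k := k₀) p K) (fibV q ε b m 𝔪 E))
    (((q : WittVector p K) ^ s) ^ numP ε) (by
      intro 𝔪 P hP r hr
      exact local_ten (k₀ := k₀) (k := k) (K := K) (WittVector.constantCoeff (p := p) (R := K))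
        (fun r hr => WittVector.isUnit_of_coeff_zero_ne_zero r hr) (teichChar (k := k₀) p K)
        (fun u => by
          rw [teichChar_apply, IsScalarTower.algebraMap_apply k₀ k K]
          exact coeff_teich p K _) G hT1 hT2 hA1 hA4 hF1 hF2 hq hf₀ hk₀ hs hk h5 hn ε b m hm hmq
        hinv E F hE hEF 𝔪 P hP r hr)
  rw [← Polynomial.coe_pow] at h2
  have h3 := eval_of_fe (WittVector.constantCoeff (p := p) (R := K)) (q := (q ^ s) ^ numP ε)
    (pow_ne_zero _ (pow_ne_zero _ (by omega))) (by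
      rw [Nat.cast_pow, Nat.cast_pow]
      exact h1) h2 H' (by
      rw [← hH', ← LN_eq q ε b m G hA1]
      rfl)
  rw [eval_pow] at h3
  have h4 := eq_zero_of_pow_eq_zero h3
  exact fixed_of_detS hq (by omega) hs hk e Φ (fun i j => (hdeg i j).trans_lt hne) h4

end fix

section resc

variable {k₀ k : Type} [Field k₀] [Field k] [Finite k] [Algebra k₀ k] {O : Type} [CommRing O]
  [Algebra k[X] O] {R : Type} [CommRing R] {n : ℕ} (q : ℕ) (ε : Fin n → Bool) {rk : Fin n → ℕ}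
  (b : ∀ j, Fin (rk j + 1) → k[X]) (m : ∀ j, Fin (rk j + 1) → ℕ)
  (G : Type) [Group G] [Finite G] [MulSemiringAction G O] [IsGaloisGroup G k[X] O]

theorem norm_mk_C_mulN (hA : PointsAff) (𝔪 : MaximalSpectrum O) [FiniteDimensional k (RO k 𝔪)]
    (Q : MaximalSpectrum (MvPolynomial (Fin n) (RO k 𝔪)))
    (u : k) (g : MvPolynomial (Fin n) (RO k 𝔪)) :
    Algebra.norm k₀ (Ideal.Quotient.mk Q.asIdeal (MvPolynomial.C (vO k 𝔪 (C u)) * g)) =
      (Algebra.norm k₀ u) ^ (finrank k (RO k 𝔪) * dV Q) *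
        Algebra.norm k₀ (Ideal.Quotient.mk Q.asIdeal g) := by
  rw [map_mul, map_mul]
  congr 1
  have hfin : Finite (RO k 𝔪) := Module.finite_of_finite k
  have h2 : 0 < dV Q := (hA (RO k 𝔪) n).1 Q
  letI : Field (MvPolynomial (Fin n) (RO k 𝔪) ⧸ Q.asIdeal) :=
    @Ideal.Quotient.field _ _ Q.asIdeal Q.isMaximal
  have h3 : FiniteDimensional (RO k 𝔪) (MvPolynomial (Fin n) (RO k 𝔪) ⧸ Q.asIdeal) :=
    Module.finite_of_finrank_pos h2
  have h4 : FiniteDimensional k (MvPolynomial (Fin n) (RO k 𝔪) ⧸ Q.asIdeal) :=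
    FiniteDimensional.trans k (RO k 𝔪) _
  have h1 : (Ideal.Quotient.mk Q.asIdeal (MvPolynomial.C (vO k 𝔪 (C u))) :
      MvPolynomial (Fin n) (RO k 𝔪) ⧸ Q.asIdeal) =
      algebraMap k (MvPolynomial (Fin n) (RO k 𝔪) ⧸ Q.asIdeal) u := rfl
  rw [h1, ← Algebra.norm_norm (R := k₀) (S := k), Algebra.norm_algebraMap, map_pow]
  congr 1
  rw [← Module.finrank_mul_finrank k (RO k 𝔪) (MvPolynomial (Fin n) (RO k 𝔪) ⧸ Q.asIdeal)]
  rfl

include G in
theorem LN_C_mul (hA : PointsAff) (χ : MulChar k₀ R) (u : k) (E : k[X]) :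
    LN O q ε b m χ (C u * E) =
      PowerSeries.rescale (χ (Algebra.norm k₀ u)) (LN O q ε b m χ E) := by
  unfold LN
  rw [rescale_euler (coverN_finite (k := k) (n := n) G hA)]
  congr 1
  funext z
  have hfd := finiteDim_RO (k := k) G z.1
  have h1 : fibV q ε b m z.1 (C u * E) =
      MvPolynomial.C (vO k z.1 (C u)) * fibV q ε b m z.1 E := by
    unfold fibV
    rw [map_mul, MvPolynomial.C_mul, mul_assoc]
  have h3 : ∀ a : R, PowerSeries.rescale (χ (Algebra.norm k₀ u)) (PowerSeries.C a) =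
      PowerSeries.C a := by
    intro a
    ext n
    rw [PowerSeries.coeff_rescale, PowerSeries.coeff_C]
    split_ifs with h
    · rw [h, pow_zero, one_mul]
    · rw [mul_zero]
  rw [h1, norm_mk_C_mulN hA, map_mul χ, map_pow χ, map_sub, map_one,
    map_mul (PowerSeries.rescale _), map_pow (PowerSeries.rescale _), PowerSeries.rescale_X, mul_pow,
    h3, map_mul, ← map_pow PowerSeries.C]
  ring

end resc

section count

/-- a function over a covering of degree a power of `p` that is unramified outside the zeros of `E`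
vanishes at a point with `(Q ^ w T) ^ e = 1`, `Q` the number of elements of `k` -/
def VanNL (k₀ : Type) [Field k₀] {k : Type} [Field k] [Algebra k₀ k] (p q e : ℕ) {n : ℕ}
    (ε : Fin n → Bool) {rk : Fin n → ℕ} (b : ∀ j, Fin (rk j + 1) → k[X])
    (m : ∀ j, Fin (rk j + 1) → ℕ) (c : ℕ) (E : k[X]) : Prop :=
  ∃ (G O : Type) (_ : Group G) (_ : Finite G) (_ : CommRing O) (_ : Algebra k[X] O)
    (_ : MulSemiringAction G O) (_ : IsGaloisGroup G k[X] O) (_ : FaithfulSMul k[X] O),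
    IsPGroup p G ∧ (∀ 𝔪 : MaximalSpectrum O, vO k 𝔪 E ≠ 0 → 𝔪.asIdeal.inertia G = ⊥) ∧
    ∃ χ : MulChar k₀ ℂ, orderOf χ = q - 1 ∧ ∃ ζ : ℂ, ζ ^ e = 1 ∧ ∃ H : ℂ[X],
      LN O q ε b m χ E = (((1 - C (((c : ℕ) : ℂ) * ζ) * X) * H : ℂ[X]) : PowerSeries ℂ)

variable {k₀ k : Type} [Field k₀] [Fintype k₀] [Field k] [Fintype k] [Algebra k₀ k]
  {p f₀ q s : ℕ} [hp : Fact p.Prime] [CharP k p]

/-- **the twists with a zero over some covering, up to constants, have a fixed vector** -/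
theorem sub_of_vanN (hT1 : TensCharpoly) (hT2 : CompanionExists) (hA1 : PointsAff)
    (hA4 : FibreProduct) (hF1 : FibrePlus) (hF2 : FibreMinus)
    (hq : q = p ^ f₀) (hf₀ : 0 < f₀) (hk₀ : Fintype.card k₀ = q)
    (hs : 0 < s) (hk : Fintype.card k = q ^ s) (h5 : 5 ≤ q) {n : ℕ} (hn : Odd n)
    (ε : Fin n → Bool) {rk : Fin n → ℕ} (b : ∀ j, Fin (rk j + 1) → k[X])
    (m : ∀ j, Fin (rk j + 1) → ℕ)
    (hm : ∀ j i, 0 < m j i) (hmq : ∀ j, ∑ i, m j i < q - 1)
    (hinv : ∀ j, ∀ i : ℕ, i < ∑ l, m j l → ((i : k₀) + 1) ≠ 0) (B F : k[X])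
    (hB : B = F * ∏ j, detM ε b m j) (hBF : ∀ P : MI k, P.1 ∣ B → P.1 ∣ F)
    (N e : ℕ) (he : e ∣ q - 1) :
    ∃ S : Finset k, S.card ≤ e ∧ (∀ u ∈ S, u ≠ 0) ∧
    {D : k[X] | D.natDegree ≤ N ∧ VanNL k₀ p q e ε b m ((q ^ s) ^ numP ε) (D * B)} ⊆
      ⋃ u ∈ S, (fun D => C u * D) '' {D : k[X] | D.natDegree ≤ N ∧
        ∃ w : (∀ j, Fin (rk j)) → k[X], w ≠ 0 ∧
        ∀ i, cart q (D * ∑ j, (F • tens (psiM ε b m)) i j * w j) =
          (w i).map (iterateFrobenius k p f₀)} := by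
  classical
  have hq1 : 0 < q - 1 := by omega
  have hnz : NeZero (q - 1) := ⟨hq1.ne'⟩
  have he0 : 0 < e := Nat.pos_of_dvd_of_pos he hq1
  set S₀ : Finset k₀ := (Polynomial.nthRoots e (1 : k₀)).toFinset with hS₀
  have hSc : S₀.card ≤ e := (Multiset.toFinset_card_le _).trans (card_nthRoots e 1)
  have hsurj := FiniteField.norm_surjective k₀ k
  choose ν hν using hsurj
  have hS₀0 : ∀ a ∈ S₀, a ≠ 0 := by
    intro a ha h
    rw [hS₀, Multiset.mem_toFinset, Polynomial.mem_nthRoots he0, h, zero_pow he0.ne'] at ha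
    exact zero_ne_one ha
  have hν0 : ∀ a : k₀, a ≠ 0 → ν a ≠ 0 := by
    intro a ha h
    apply ha
    rw [← hν a, h, Algebra.norm_zero]
  refine ⟨S₀.image ν, Finset.card_image_le.trans hSc, ?_, ?_⟩
  · intro u hu
    obtain ⟨a, ha, rfl⟩ := Finset.mem_image.1 hu
    exact hν0 a (hS₀0 a ha)
  rintro D ⟨hD, G, O, i1, i2, i3, i4, i5, i6, i7, hG, hun, χ, hχ, ζ, hζ, H, hH⟩
  obtain ⟨g, hg⟩ := IsCyclic.exists_generator (α := k₀ˣ)
  have hprim := prim_of_order χ hq1 hχ hg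
  have hζ0 : ζ ≠ 0 := by
    intro h
    rw [h, zero_pow he0.ne'] at hζ
    exact zero_ne_one hζ
  have hζ' : ζ ^ (q - 1) = 1 := by
    obtain ⟨c, hc⟩ := he
    rw [hc, pow_mul, hζ, one_pow]
  obtain ⟨i, _, hi⟩ := hprim.eq_pow_of_pow_eq_one hζ'
  have hgq : ((g : k₀)) ^ (i * e) = 1 := by
    have h6 : (χ (g : k₀)) ^ (i * e) = 1 := by rw [pow_mul, hi, hζ]
    have h7 := hprim.dvd_of_pow_eq_one _ h6
    obtain ⟨c, hc⟩ := h7
    rw [hc, pow_mul, ← hk₀, FiniteField.pow_card_sub_one_eq_one _ g.ne_zero, one_pow]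
  set a : k₀ := (g : k₀) ^ i with ha
  have ha0 : a ≠ 0 := pow_ne_zero _ g.ne_zero
  set u : k := ν a with hu
  have hu0 : u ≠ 0 := hν0 a ha0
  have huN : Algebra.norm k₀ u = a := hν a
  rw [Set.mem_iUnion₂]
  refine ⟨u, Finset.mem_image.2 ⟨a, ?_, rfl⟩, C (u⁻¹) * D, ?_, ?_⟩
  · rw [hS₀, Multiset.mem_toFinset, Polynomial.mem_nthRoots he0, ha, ← pow_mul]
    exact hgq
  · refine ⟨(natDegree_C_mul_le _ _).trans hD, ?_⟩
    have h6 : χ (Algebra.norm k₀ (u⁻¹)) = ζ⁻¹ := by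
      have h7 : χ (Algebra.norm k₀ (u⁻¹)) * χ (Algebra.norm k₀ u) = 1 := by
        rw [← map_mul, ← map_mul, inv_mul_cancel₀ hu0, map_one, map_one]
      rw [huN, ha, map_pow, hi] at h7
      exact eq_inv_of_mul_eq_one_left h7
    have hH1 : LN O q ε b m χ ((C (u⁻¹) * D) * B) =
        (((1 - C ((((q ^ s) ^ numP ε : ℕ)) : ℂ) * X) * (H.comp (C ζ⁻¹ * X)) : ℂ[X]) :
          PowerSeries ℂ) := by
      rw [mul_assoc, LN_C_mul q ε b m G hA1, hH, h6]
      have h8 : ∀ H : ℂ[X], PowerSeries.rescale ζ⁻¹ (H : PowerSeries ℂ) =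
          ((H.comp (C ζ⁻¹ * X) : ℂ[X]) : PowerSeries ℂ) := by
        intro H
        ext n
        rw [PowerSeries.coeff_rescale, Polynomial.coeff_coe, Polynomial.coeff_coe,
          comp_C_mul_X_coeff, mul_comm]
      rw [h8]
      congr 1
      rw [mul_comp, sub_comp, one_comp, mul_comp, C_comp, X_comp, C_mul]
      congr 2
      rw [mul_assoc, ← mul_assoc (C ζ), ← C_mul, mul_inv_cancel₀ hζ0, C_1, one_mul]
    obtain ⟨w, hw0, hw⟩ := fixed_of_vanishN G hT1 hT2 hA1 hA4 hF1 hF2 hq hf₀ hk₀ hs hk h5 hG χ hχ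
      hn ε b m hm hmq hinv ((C (u⁻¹) * D) * B) ((C (u⁻¹) * D) * F) (by rw [hB]; ring) (by
        intro P hP
        rcases P.2.2.prime.dvd_or_dvd hP with h | h
        · exact h.mul_right _
        · exact (hBF P h).mul_left _) (by
        intro 𝔪 h𝔪
        apply hun
        intro h0
        apply h𝔪
        rw [mul_assoc, map_mul, h0, mul_zero]) (H.comp (C ζ⁻¹ * X)) hH1
    refine ⟨w, hw0, fun i => ?_⟩
    rw [← hw i]
    congr 1
    rw [Finset.mul_sum]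
    refine Finset.sum_congr rfl fun j _ => ?_
    rw [Matrix.smul_apply, Matrix.smul_apply, smul_eq_mul, smul_eq_mul]
    ring
  · show C u * (C (u⁻¹) * D) = D
    rw [← mul_assoc, ← C_mul, mul_inv_cancel₀ hu0, C_1, one_mul]

end count

end Pool.Agent.Y709.Ten
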