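import Pool.Agent.Y709.Gen.FeG
import Pool.Agent.Y709.Gen.FixG
import Pool.Agent.Y709.Irr.Det
import Pool.Agent.Y709.Log
import Mathlib.RingTheory.Jacobson.Ring
import Mathlib.RingTheory.Spectrum.Maximal.Basic

/-!
Statements for the tensor products of fibres: products of pencils over the line.
-/

set_option autoImplicit false

open Polynomial

namespace Pool.Agent.Y709.Ten

open Pool.Agent.W313.Hyp Pool.Agent.W343.BSD Pool.Agent.Y709 Pool.Agent.Y709.Gen

/-- the tensor product of matrices -/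
def tens {ι : Type} [Fintype ι] {κ : ι → Type} {R : Type} [CommRing R]
    (A : ∀ j, Matrix (κ j) (κ j) R) : Matrix (∀ j, κ j) (∀ j, κ j) R :=
  Matrix.of fun u v => ∏ j, A j (u j) (v j)

/-- T1: the reversed characteristic polynomial of a tensor product depends only on those of the
factors -/
def TensCharpoly : Prop :=
  ∀ (R : Type) [CommRing R] (ι : Type) [Fintype ι] [DecidableEq ι] (κ κ' : ι → Type)
    [∀ j, Fintype (κ j)] [∀ j, DecidableEq (κ j)] [∀ j, Fintype (κ' j)] [∀ j, DecidableEq (κ' j)]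
    (A : ∀ j, Matrix (κ j) (κ j) R) (B : ∀ j, Matrix (κ' j) (κ' j) R) (c : R),
    (∀ j, (A j).charpolyRev = (B j).charpolyRev) →
    (c • tens A).charpolyRev = (c • tens B).charpolyRev

/-- T2: every polynomial with constant term one is a reversed characteristic polynomial -/
def CompanionExists : Prop :=
  ∀ (R : Type) [CommRing R] (Q : R[X]), Q.coeff 0 = 1 →
    ∃ (n : ℕ) (A : Matrix (Fin n) (Fin n) R), A.charpolyRev = Q

/-- the degree of a closed point of the affine space over `F` -/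
noncomputable def dV {F : Type} [Field F] {n : ℕ}
    (z : MaximalSpectrum (MvPolynomial (Fin n) F)) : ℕ :=
  Module.finrank F (MvPolynomial (Fin n) F ⧸ z.asIdeal)

/-- the Euler product over the closed points of the affine space over `F` -/
noncomputable def ZV (R : Type) [CommRing R] {k F : Type} [Field k] [Field F] [Algebra k F] {n : ℕ}
    (χ : MulChar k R) (g : MvPolynomial (Fin n) F) : PowerSeries R :=
  eulerProd (fun z : MaximalSpectrum (MvPolynomial (Fin n) F) => dV z)
    (fun z => 1 - PowerSeries.C (χ (Algebra.norm k (Ideal.Quotient.mk z.asIdeal g))) *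
      PowerSeries.X ^ dV z)

/-- A1: the closed points of the affine space -/
def PointsAff : Prop :=
  ∀ (F : Type) [Field F] [Finite F] (n : ℕ),
    (∀ z : MaximalSpectrum (MvPolynomial (Fin n) F), 0 < dV z) ∧
    ∀ m : ℕ, {z : MaximalSpectrum (MvPolynomial (Fin n) F) | dV z ≤ m}.Finite

/-- A2: the logarithmic derivative of the Euler product over the affine space -/
def SumsAff : Prop :=
  ∀ (R : Type) [CommRing R] (k F : Type) [Field k] [Finite k] [Field F] [Finite F] [Algebra k F]
    (χ : MulChar k R) (n : ℕ) (g : MvPolynomial (Fin n) F),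
    ∃ S : PowerSeries R, Lg (ZV R χ g) S ∧ PowerSeries.coeff 0 S = 0 ∧
      ∀ a : ℕ, a ≠ 0 → ∀ (E : Type) [Field E] [Fintype E] [Algebra F E] [Algebra k E]
        [IsScalarTower k F E], Module.finrank F E = a →
        PowerSeries.coeff a S = ∑ x : Fin n → E, χ (Algebra.norm k (MvPolynomial.aeval x g))

/-- A3: the logarithmic derivative of the Euler product over the line -/
def SumsLine : Prop :=
  ∀ (R : Type) [CommRing R] (k F : Type) [Field k] [Finite k] [Field F] [Finite F] [Algebra k F]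
    (χ : MulChar k R) (f : F[X]),
    ∃ S : PowerSeries R, Lg (fibG R χ f) S ∧ PowerSeries.coeff 0 S = 0 ∧
      ∀ a : ℕ, a ≠ 0 → ∀ (E : Type) [Field E] [Fintype E] [Algebra F E] [Algebra k E]
        [IsScalarTower k F E], Module.finrank F E = a →
        PowerSeries.coeff a S = ∑ x : E, χ (Algebra.norm k (Polynomial.aeval x f))

/-- A4: the Euler product of a product of an odd number of curves -/
def FibreProduct : Prop :=
  ∀ (R : Type) [CommRing R] [IsDomain R] [CharZero R] (k F : Type) [Field k] [Finite k] [Field F]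
    [Finite F] [Algebra k F] (χ : MulChar k R) (n : ℕ) (_ : Odd n) (c : F) (f : Fin n → F[X])
    (κ : Fin n → Type) [∀ j, Fintype (κ j)] [∀ j, DecidableEq (κ j)]
    (A : ∀ j, Matrix (κ j) (κ j) R),
    (∀ j, fibG R χ (f j) * ((A j).charpolyRev : PowerSeries R) = 1) →
    ZV R χ (MvPolynomial.C c * ∏ j, Polynomial.aeval (MvPolynomial.X j) (f j)) *
      ((χ (Algebra.norm k c) • tens A).charpolyRev : PowerSeries R) = 1

/-- D1: the determinant of the matrix of a pencil -/
def DetMinor : Prop :=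
  ∀ (k : Type) [Field k] (p : ℕ) [Fact p.Prime] [CharP k p] (r : ℕ) (m : Fin (r + 1) → ℕ),
    (∀ i, 0 < m i) → (∀ i : ℕ, i < ∑ l, m l → ((i : k) + 1) ≠ 0) →
    ∀ β : Fin (r + 1) → k[X], Function.Injective β →
    ∃ c : k, c ≠ 0 ∧ (minor 1 β m).det =
      C c * ∏ x ∈ Irr.prs r, (β x.2 - β x.1) ^ (m x.1 + m x.2)

/-- the matrix of a pencil over a field -/
noncomputable def mn {F : Type} [Field F] {r : ℕ} (b : Fin (r + 1) → F) (m : Fin (r + 1) → ℕ) :
    Matrix (Fin r) (Fin r) F :=
  Matrix.of fun i j => phi F b m 0 i.succ j.succ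

/-- F1: the fibre of a pencil, and its reduction -/
def FibrePlus : Prop :=
  ∀ (k F R K : Type) [Field k] [Fintype k] [Field F] [Fintype F] [Algebra k F] [CommRing R]
    [IsDomain R] [CharZero R] [Field K] (π : R →+* K) (σ : F →+* K) (χ : MulChar k R)
    (_ : ∀ u : k, π (χ u) = σ (algebraMap k F u)) (_ : ∀ r : R, π r ≠ 0 → IsUnit r)
    (p f q d r : ℕ) [Fact p.Prime] [CharP F p] (_ : q = p ^ f) (_ : 0 < f)
    (_ : Fintype.card k = q) (_ : 5 ≤ q) (_ : 0 < d) (_ : Fintype.card F = q ^ d)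
    (m : Fin (r + 1) → ℕ) (_ : ∀ i, 0 < m i) (_ : ∑ i, m i < q - 1)
    (_ : ∀ i : ℕ, i < ∑ l, m l → ((i : k) + 1) ≠ 0) (b : Fin (r + 1) → F),
    ∃ P : R[X], P.coeff 0 = 1 ∧
      fibG R χ (∏ i, (X - C (b i)) ^ m i) *
        PowerSeries.rescale ((q : R) ^ d) (P : PowerSeries R) = 1 ∧
      P.map π = (mprod (fun j => mn (cjb q b j) m) d).charpolyRev.map σ

/-- F2: the fibre of the opposite pencil, and its reduction -/
def FibreMinus : Prop :=
  ∀ (k F R K : Type) [Field k] [Fintype k] [Field F] [Fintype F] [Algebra k F] [CommRing R]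
    [IsDomain R] [CharZero R] [Field K] (π : R →+* K) (σ : F →+* K) (χ : MulChar k R)
    (_ : ∀ u : k, π (χ u) = σ (algebraMap k F u)) (_ : ∀ r : R, π r ≠ 0 → IsUnit r)
    (p f q d r : ℕ) [Fact p.Prime] [CharP F p] (_ : q = p ^ f) (_ : 0 < f)
    (_ : Fintype.card k = q) (_ : 5 ≤ q) (_ : 0 < d) (_ : Fintype.card F = q ^ d)
    (m : Fin (r + 1) → ℕ) (_ : ∀ i, 0 < m i) (_ : ∑ i, m i < q - 1)
    (_ : ∀ i : ℕ, i < ∑ l, m l → ((i : k) + 1) ≠ 0) (b : Fin (r + 1) → F)
    (_ : Function.Injective b),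
    (∀ j, (mn (cjb q b j) m).det ≠ 0) ∧
    ∃ P : R[X], P.coeff 0 = 1 ∧
      fibG R χ (∏ i, (X - C (b i)) ^ (q - 1 - m i)) * (P : PowerSeries R) = 1 ∧
      P.map π = (mprod (fun j => ((mn (cjb q b j) m)⁻¹).transpose) d).charpolyRev.map σ

end Pool.Agent.Y709.Ten
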