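import Pool.Agent.Y709.Ten.Count

/-!
The weights of the closed points in terms of a character and its inverse.
-/

set_option autoImplicit false
set_option linter.unusedSectionVars false

open Polynomial Module

namespace Pool.Agent.Y709.Ten

open Pool.Agent.W313.Hyp Pool.Agent.W343.BSD Pool.Agent.Y709 Pool.Agent.Y709.Gen
open Pool.Agent.Y709.Lay

theorem order_pow {k : Type} [Field k] {q : ℕ} (χ : MulChar k ℂ) (hχ : orderOf χ = q - 1) {x : k}
    (hx : x ≠ 0) : χ (x ^ (q - 1)) = 1 := by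
  have h1 : χ ^ (q - 1) = 1 := by rw [← hχ]; exact pow_orderOf_eq_one χ
  have h2 := congrArg (fun ψ : MulChar k ℂ => ψ ((Units.mk0 x hx : kˣ) : k)) h1
  simp only [MulChar.pow_apply_coe, MulChar.one_apply_coe] at h2
  rw [map_pow]
  exact h2

theorem norm_ne_of_isField {k A : Type} [Field k] [CommRing A] [Algebra k A] (hA : IsField A)
    {x : A} (hx : x ≠ 0) : Algebra.norm k x ≠ 0 := by
  obtain ⟨y, hy⟩ := hA.mul_inv_cancel hx
  intro h
  have h1 := congrArg (Algebra.norm k) hy
  rw [map_mul, h, zero_mul, map_one] at h1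
  exact zero_ne_one h1

section wt

variable {k : Type} [Field k] {A : Type} [CommRing A] [Algebra k A]

/-- the weight in an algebra -/
theorem wt_alg (hA : IsField A) [Module.Finite k A] {n : ℕ} {q : ℕ} (m : ℕ) (χ : MulChar k ℂ)
    (hχ : orderOf χ = q - 1) {rk : Fin n → ℕ} (μ : ∀ j, Fin (rk j + 1) → ℕ)
    (hm : ∀ j i, 0 < μ j i) (hmq : ∀ j i, μ j i < q - 1) (c : A) (v : ∀ j, Fin (rk j + 1) → A) :
    χ (Algebra.norm k (c * ∏ j : Fin n with j.val < m, ∏ i, v j i ^ μ j i)) *
      χ⁻¹ (Algebra.norm k (∏ j : Fin n with ¬ j.val < m, ∏ i, v j i ^ μ j i)) =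
      χ (Algebra.norm k (c * ∏ j, ∏ i, v j i ^ (exq q (fun j => decide ((j : ℕ) < m)) μ j i))) := by
  have hnt : Nontrivial A := hA.nontrivial
  have e2 : c * ∏ j, ∏ i, v j i ^ (exq q (fun j => decide ((j : ℕ) < m)) μ j i) =
      (c * ∏ j : Fin n with j.val < m, ∏ i, v j i ^ μ j i) *
        ∏ j : Fin n with ¬ j.val < m, ∏ i, v j i ^ (q - 1 - μ j i) := by
    rw [mul_assoc]
    congr 1
    rw [← Finset.prod_filter_mul_prod_filter_not Finset.univ (fun j : Fin n => (j : ℕ) < m)]
    congr 1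
    · refine Finset.prod_congr rfl fun j hj => ?_
      rw [Finset.mem_filter] at hj
      refine Finset.prod_congr rfl fun i _ => ?_
      unfold exq
      rw [if_pos (decide_eq_true hj.2)]
    · refine Finset.prod_congr rfl fun j hj => ?_
      rw [Finset.mem_filter] at hj
      refine Finset.prod_congr rfl fun i _ => ?_
      unfold exq
      rw [if_neg (by simpa using hj.2)]
  rw [e2, map_mul (Algebra.norm k) (_ * _), map_mul χ]
  congr 1
  by_cases h0 : ∃ j : Fin n, ¬ (j : ℕ) < m ∧ ∃ i, v j i = 0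
  · obtain ⟨j, hj, i, hi⟩ := h0
    have a1 : ∏ j : Fin n with ¬ j.val < m, ∏ i, v j i ^ μ j i = 0 := by
      refine Finset.prod_eq_zero (i := j) (Finset.mem_filter.2 ⟨Finset.mem_univ _, hj⟩) ?_
      refine Finset.prod_eq_zero (Finset.mem_univ i) ?_
      rw [hi, zero_pow (hm j i).ne']
    have a2 : ∏ j : Fin n with ¬ j.val < m, ∏ i, v j i ^ (q - 1 - μ j i) = 0 := by
      refine Finset.prod_eq_zero (i := j) (Finset.mem_filter.2 ⟨Finset.mem_univ _, hj⟩) ?_
      refine Finset.prod_eq_zero (Finset.mem_univ i) ?_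
      rw [hi, zero_pow]
      have := hmq j i
      omega
    rw [a1, a2, Algebra.norm_zero, MulChar.map_zero, MulChar.map_zero]
  · push Not at h0
    have a00 : ∀ {ι : Type} (s : Finset ι) (f : ι → A), (∀ i ∈ s, f i ≠ 0) → ∏ i ∈ s, f i ≠ 0 := by
      intro ι s f h
      have hd : IsDomain A := hA.isDomain
      exact Finset.prod_ne_zero_iff.2 h
    have a0 : ∏ j : Fin n with ¬ j.val < m, ∏ i, v j i ≠ 0 :=
      a00 _ _ fun j hj => a00 _ _ fun i _ => h0 j (not_lt.1 (Finset.mem_filter.1 hj).2) i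
    have a1 : (∏ j : Fin n with ¬ j.val < m, ∏ i, v j i ^ (q - 1 - μ j i)) *
        (∏ j : Fin n with ¬ j.val < m, ∏ i, v j i ^ μ j i) =
        (∏ j : Fin n with ¬ j.val < m, ∏ i, v j i) ^ (q - 1) := by
      rw [← Finset.prod_mul_distrib, ← Finset.prod_pow]
      refine Finset.prod_congr rfl fun j _ => ?_
      rw [← Finset.prod_mul_distrib, ← Finset.prod_pow]
      refine Finset.prod_congr rfl fun i _ => ?_
      rw [← pow_add, Nat.sub_add_cancel (hmq j i).le]
    have a2 := congrArg (fun x => χ (Algebra.norm k x)) a1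
    rw [map_mul, map_mul, map_pow (Algebra.norm k), order_pow χ hχ
      (norm_ne_of_isField hA a0)] at a2
    rw [MulChar.inv_apply_eq_inv', eq_comm]
    exact eq_inv_of_mul_eq_one_left a2

end wt

section wt2

variable {k F : Type} [Field k] [Finite k] [Field F] [Finite F] [Algebra k F]

/-- the weight at a closed point of the affine space -/
theorem wt_pt {n : ℕ} {q : ℕ} (m : ℕ) (χ : MulChar k ℂ)
    (hχ : orderOf χ = q - 1) {rk : Fin n → ℕ} (μ : ∀ j, Fin (rk j + 1) → ℕ)
    (hm : ∀ j i, 0 < μ j i) (hmq : ∀ j i, μ j i < q - 1) (c : F) (b : ∀ j, Fin (rk j + 1) → F)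
    (Q : MaximalSpectrum (MvPolynomial (Fin n) F)) :
    χ (Algebra.norm k (Ideal.Quotient.mk Q.asIdeal (MvPolynomial.C c *
        ∏ j : Fin n with j.val < m,
          ∏ i, (MvPolynomial.X j - MvPolynomial.C (b j i)) ^ μ j i))) *
      χ⁻¹ (Algebra.norm k (Ideal.Quotient.mk Q.asIdeal (∏ j : Fin n with ¬ j.val < m,
        ∏ i, (MvPolynomial.X j - MvPolynomial.C (b j i)) ^ μ j i))) =
      χ (Algebra.norm k (Ideal.Quotient.mk Q.asIdeal (MvPolynomial.C c *
        ∏ j, Polynomial.aeval (MvPolynomial.X j) (∏ i, (X - C (b j i)) ^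
          exq q (fun j => decide ((j : ℕ) < m)) μ j i : F[X])))) := by
  have h2 : 0 < dV Q := (Pool.Agent.Y858.Ten.pointsAff F n).1 Q
  have h3 : Module.Finite F (MvPolynomial (Fin n) F ⧸ Q.asIdeal) :=
    Module.finite_of_finrank_pos h2
  have h30 : Module.Finite k F := Module.Finite.of_finite
  have h4 : Module.Finite k (MvPolynomial (Fin n) F ⧸ Q.asIdeal) := Module.Finite.trans F _
  have hA : IsField (MvPolynomial (Fin n) F ⧸ Q.asIdeal) :=
    (Ideal.Quotient.maximal_ideal_iff_isField_quotient Q.asIdeal).1 Q.isMaximal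
  have h5 := wt_alg (k := k) hA m χ hχ μ hm hmq
    (Ideal.Quotient.mk Q.asIdeal (MvPolynomial.C c))
    (fun j i => Ideal.Quotient.mk Q.asIdeal (MvPolynomial.X j - MvPolynomial.C (b j i)))
  simp only [map_mul, map_prod, map_pow, map_sub, aeval_X, aeval_C] at h5 ⊢
  exact h5

end wt2

end Pool.Agent.Y709.Ten
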